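import Pool.Agent.U722.OG.Lat

/-!
# The tree of the orthogonal group of a form of Witt index one
-/

set_option autoImplicit false

namespace Pool.Agent.U722.OG

open Pool.Agent.U709.BT

variable {F : Type} [Field F] (V : DV F) {m : ℕ} (A : Matrix (Fin m) (Fin m) F)

/-- the stabilizer of the lattice `L₀` -/
def Kg : Subgroup (Iso A) where
  carrier := {g | (∀ v, Lat V 0 v → Lat V 0 (g.1 v)) ∧ ∀ v, Lat V 0 v → Lat V 0 ((g⁻¹).1 v)}
  one_mem' := ⟨fun _ h => h, fun v h => by rw [inv_one]; exact h⟩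
  mul_mem' := by
    rintro g h ⟨h1, h2⟩ ⟨h3, h4⟩
    refine ⟨fun v hv => h1 _ (h3 _ hv), fun v hv => ?_⟩
    rw [mul_inv_rev]
    exact h4 _ (h2 _ hv)
  inv_mem' := by
    rintro g ⟨h1, h2⟩
    exact ⟨h2, fun v hv => by rw [inv_inv]; exact h1 _ hv⟩

/-- the stabilizer of the line of `e₁` -/
def Bg : Subgroup (Iso A) where
  carrier := {g | (g.1 (e₁ F m)).2 = 0}
  one_mem' := rfl
  mul_mem' := by
    intro g h hg hh
    have h1 : h.1 (e₁ F m) = (h.1 (e₁ F m)).1 • e₁ F m := by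
      refine Prod.ext ?_ ?_
      · simp [e₁]
      · rw [show (h.1 (e₁ F m)).2 = 0 from hh]
        simp [e₁]
        rfl
    change (g.1 (h.1 (e₁ F m))).2 = 0
    rw [h1, map_smul, Prod.smul_snd, show (g.1 (e₁ F m)).2 = 0 from hg, smul_zero]
  inv_mem' := by
    intro g hg
    have h1 : g.1 (e₁ F m) = (g.1 (e₁ F m)).1 • e₁ F m := by
      refine Prod.ext ?_ ?_
      · simp [e₁]
      · rw [show (g.1 (e₁ F m)).2 = 0 from hg]
        simp [e₁]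
        rfl
    obtain ⟨a, ha⟩ : ∃ a, a = (g.1 (e₁ F m)).1 := ⟨_, rfl⟩
    rw [← ha] at h1
    have h2 : e₁ F m = a • (g⁻¹).1 (e₁ F m) := by
      rw [← map_smul, ← h1, Iso.inv_apply]
    have ha0 : a ≠ 0 := by
      rintro rfl
      rw [zero_smul] at h2
      have := congrArg Prod.fst h2
      simp [e₁] at this
    change ((g⁻¹).1 (e₁ F m)).2 = 0
    have h3 := congrArg Prod.snd h2
    rw [Prod.smul_snd] at h3
    have h4 : a • ((g⁻¹).1 (e₁ F m)).2 = 0 := h3.symm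
    exact (smul_eq_zero.1 h4).resolve_left ha0

variable {V A}

theorem mem_Bg {g : Iso A} : g ∈ Bg A ↔ (g.1 (e₁ F m)).2 = 0 := Iff.rfl

theorem Bg_apply {g : Iso A} (hg : g ∈ Bg A) : g.1 (e₁ F m) = (g.1 (e₁ F m)).1 • e₁ F m := by
  refine Prod.ext ?_ ?_
  · simp [e₁]
  · rw [mem_Bg.1 hg]
    simp [e₁]
    rfl

theorem Bg_ne {g : Iso A} (hg : g ∈ Bg A) : (g.1 (e₁ F m)).1 ≠ 0 := by
  intro h
  have h1 := Bg_apply hg
  rw [h, zero_smul] at h1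
  have h2 := Iso.inv_apply g (e₁ F m)
  rw [h1, map_zero] at h2
  have := congrArg Prod.fst h2
  simp [e₁] at this

theorem Bg_mul {g h : Iso A} (hh : h ∈ Bg A) :
    ((g * h).1 (e₁ F m)).1 = (h.1 (e₁ F m)).1 * (g.1 (e₁ F m)).1 := by
  rw [Iso.mul_apply, Bg_apply hh, map_smul, Prod.smul_fst, smul_eq_mul, ← Bg_apply hh]

theorem Lat_e₁ : Lat V 0 (e₁ F m) := ⟨V.L_one, V.L_zero 0, Lw_zero 0⟩

theorem Lat_e₂ : Lat V 0 (e₂ F m) := ⟨V.L_zero 0, V.L_one, Lw_zero 0⟩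

theorem Lat_e₃ {w : Fin m → F} {n : ℤ} (hw : Lw V n w) : Lat V n ((0, 0, w) : E F m) :=
  ⟨V.L_zero n, V.L_zero n, hw⟩

variable (V A)

/-- the translation -/
noncomputable def tl : Iso A := dg A V.w⁻¹ (inv_ne_zero V.w_ne)

variable {V A}

theorem tl_apply (v : E F m) : (tl V A).1 v = (V.w⁻¹ * v.1, V.w * v.2.1, v.2.2) := by
  unfold tl
  rw [dg_apply, inv_inv]

theorem tl_inv_apply (v : E F m) : ((tl V A)⁻¹).1 v = (V.w * v.1, V.w⁻¹ * v.2.1, v.2.2) := by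
  unfold tl
  rw [dg_inv_apply, inv_inv]

theorem tl_pow_apply (n : ℕ) (v : E F m) :
    ((tl V A) ^ n).1 v = ((V.w ^ n)⁻¹ * v.1, V.w ^ n * v.2.1, v.2.2) := by
  induction n with
  | zero =>
    rw [pow_zero, pow_zero, inv_one, one_mul, one_mul]
    rfl
  | succ n ih =>
    rw [pow_succ', Iso.mul_apply, ih, tl_apply]
    refine Prod.ext ?_ (Prod.ext ?_ rfl)
    · simp only
      rw [pow_succ, mul_inv]
      ring
    · simp only
      rw [pow_succ]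
      ring

theorem tl_pow_inv_apply (n : ℕ) (v : E F m) :
    (((tl V A) ^ n)⁻¹).1 v = (V.w ^ n * v.1, (V.w ^ n)⁻¹ * v.2.1, v.2.2) := by
  have h := Iso.inv_apply ((tl V A) ^ n) (V.w ^ n * v.1, (V.w ^ n)⁻¹ * v.2.1, v.2.2)
  rw [tl_pow_apply] at h
  have hw : V.w ^ n ≠ 0 := pow_ne_zero _ V.w_ne
  have e : ((V.w ^ n)⁻¹ * (V.w ^ n * v.1), V.w ^ n * ((V.w ^ n)⁻¹ * v.2.1), v.2.2) = v := by
    refine Prod.ext ?_ (Prod.ext ?_ rfl)
    · simp only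
      rw [inv_mul_cancel_left₀ hw]
    · simp only
      rw [mul_inv_cancel_left₀ hw]
  rwa [e] at h

theorem L_pow (n : ℕ) {k : ℤ} {x : F} (h : V.L k x) : V.L (n + k) (V.w ^ n * x) :=
  DV.L_mul (fun _ => by rw [v_pow]) h

theorem L_pow_inv (n : ℕ) {k : ℤ} {x : F} (h : V.L k x) : V.L (k - n) ((V.w ^ n)⁻¹ * x) := by
  have h1 : V.L (-(n : ℤ)) (V.w ^ n)⁻¹ := fun _ => by
    rw [V.v_inv (pow_ne_zero _ V.w_ne), v_pow]
  have := DV.L_mul h1 h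
  rwa [neg_add_eq_sub] at this

theorem L_w {k : ℤ} {x : F} (h : V.L k x) : V.L (1 + k) (V.w * x) :=
  DV.L_mul (fun _ => by rw [V.v_w]) h

theorem L_winv {k : ℤ} {x : F} (h : V.L k x) : V.L (k - 1) (V.w⁻¹ * x) := by
  have h1 : V.L (-1) V.w⁻¹ := fun _ => by
    rw [V.v_inv V.w_ne, V.v_w]
  have := DV.L_mul h1 h
  rwa [neg_add_eq_sub] at this

theorem unit_of {x : F} (h : V.L 0 x) (h' : ¬ V.L 1 x) : x ≠ 0 ∧ V.v x = 0 := by
  have hx : x ≠ 0 := by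
    rintro rfl
    exact h' (V.L_zero 1)
  refine ⟨hx, ?_⟩
  have h1 := h hx
  by_contra h2
  exact h' fun _ => by omega

theorem split3 (v : E F m) (c : F) (d : F) :
    ((c * v.1, d * v.2.1, v.2.2) : E F m) =
      (c * v.1) • e₁ F m + (d * v.2.1) • e₂ F m + ((0, 0, v.2.2) : E F m) := by
  refine Prod.ext ?_ (Prod.ext ?_ ?_)
  · simp [e₁, e₂]
  · simp [e₁, e₂]
  · simp [e₁, e₂]

theorem app3 (g : Iso A) (c d : F) (z : E F m) :
    g.1 (c • e₁ F m + d • e₂ F m + z) = c • g.1 (e₁ F m) + d • g.1 (e₂ F m) + g.1 z := by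
  rw [map_add, map_add, map_smul, map_smul]

/-- elements of the parahoric subgroup -/
theorem crit1 (hA : An V A) {g : Iso A} (hg : g ∈ Kg V A) (h1 : V.L 1 (g.1 (e₁ F m)).2.1)
    (v : E F m) (hv : Lat V 0 v) : Lat V 0 (((tl V A)⁻¹ * g * tl V A).1 v) := by
  obtain ⟨x, hx⟩ : ∃ x, x = (g.1 (e₁ F m)).1 := ⟨_, rfl⟩
  obtain ⟨y, hy⟩ : ∃ y, y = (g.1 (e₁ F m)).2.1 := ⟨_, rfl⟩
  obtain ⟨w, hw⟩ : ∃ w, w = (g.1 (e₁ F m)).2.2 := ⟨_, rfl⟩
  have hge : g.1 (e₁ F m) = (x, y, w) := by rw [hx, hy, hw]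
  have hLe := hg.1 _ Lat_e₁
  rw [hge] at hLe h1
  obtain ⟨hLx, hLy, hLw⟩ := hLe
  simp only at hLx hLy hLw h1
  -- `x` is a unit
  have hxu : x ≠ 0 ∧ V.v x = 0 := by
    refine unit_of hLx fun hx1 => ?_
    have hq0 : x * y + qf A w = 0 := by
      have := g.2 (e₁ F m)
      rw [hge] at this
      simpa [q, e₁, qf_zero] using this
    have hw1 : Lw V 1 w := by
      have : V.L (2 * 0 + 1) (qf A w) := by
        have e : qf A w = - (x * y) := by linear_combination hq0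
        rw [e]
        exact DV.L_neg (DV.L_mono (by norm_num) (DV.L_mul hLx h1))
      exact Lw_of_odd hA this
    have h3 : Lat V 1 (g.1 (e₁ F m)) := by rw [hge]; exact ⟨hx1, h1, hw1⟩
    have h4 : Lat V 0 (g.1 (V.w⁻¹ • e₁ F m)) := by
      rw [map_smul]
      have h5 : V.L (-1) V.w⁻¹ := fun _ => by rw [V.v_inv V.w_ne, V.v_w]
      have := Lat_smul h5 h3
      rwa [show (-1 : ℤ) + 1 = 0 by norm_num] at this
    have h6 := hg.2 _ h4
    rw [Iso.inv_apply] at h6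
    have h7 := h6.1
    have h8 : (V.w⁻¹ • e₁ F m : E F m).1 = V.w⁻¹ := by simp [e₁]
    rw [h8] at h7
    have h9 := h7 (inv_ne_zero V.w_ne)
    rw [V.v_inv V.w_ne, V.v_w] at h9
    omega
  have hq0 : x * y + qf A w = 0 := by
    have := g.2 (e₁ F m)
    rw [hge] at this
    simpa [q, e₁, qf_zero] using this
  have hw1 : Lw V 1 w := by
    have : V.L (2 * 0 + 1) (qf A w) := by
      have e : qf A w = - (x * y) := by linear_combination hq0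
      rw [e]
      exact DV.L_neg (DV.L_mono (by norm_num) (DV.L_mul hLx h1))
    exact Lw_of_odd hA this
  have hy2 : V.L 2 y := by
    have h3 := (Lw_iff hA 1 w).1 hw1
    have e : x * y = - qf A w := by linear_combination hq0
    have h4 : V.L (0 + 2) (x * y) := by
      rw [e]
      exact DV.L_neg h3
    exact DV.L_of_mul hxu.1 hxu.2 h4
  -- the image of `(0, 0, v.2.2)`
  obtain ⟨u, hu⟩ : ∃ u, u = g.1 ((0, 0, v.2.2) : E F m) := ⟨_, rfl⟩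
  have hLu : Lat V 0 u := by
    rw [hu]
    exact hg.1 _ (Lat_e₃ hv.2.2)
  have hu1 : V.L 1 u.2.1 := by
    have h3 := Iso.pol g ((0, 0, v.2.2) : E F m) (e₁ F m)
    rw [← hu, hge, pol_e₁] at h3
    have h4 : u.1 * y + x * u.2.1 + bf A u.2.2 w = 0 := h3
    have h5 : V.L 1 (u.1 * y) := DV.L_mono (by norm_num) (DV.L_mul hLu.1 hy2)
    have h6 : V.L (0 + 1) (bf A u.2.2 w) := bf_L hA hLu.2.2 hw1
    have e : x * u.2.1 = - (u.1 * y + bf A u.2.2 w) := by linear_combination h4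
    have h7 : V.L (0 + 1) (x * u.2.1) := by
      rw [e]
      exact DV.L_neg (DV.L_add h5 h6)
    exact DV.L_of_mul hxu.1 hxu.2 h7
  obtain ⟨f, hf⟩ : ∃ f, f = g.1 (e₂ F m) := ⟨_, rfl⟩
  have hLf : Lat V 0 f := by
    rw [hf]
    exact hg.1 _ Lat_e₂
  rw [Iso.mul_apply, Iso.mul_apply, tl_apply, split3, app3, hge, ← hf, ← hu, tl_inv_apply]
  refine ⟨?_, ?_, ?_⟩
  · simp only [Prod.fst_add, Prod.smul_fst, smul_eq_mul]
    have e : V.w * (V.w⁻¹ * v.1 * x + V.w * v.2.1 * f.1 + u.1) =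
        v.1 * x + V.w * (V.w * (v.2.1 * f.1)) + V.w * u.1 := by
      have hww : V.w * V.w⁻¹ = 1 := mul_inv_cancel₀ V.w_ne
      linear_combination v.1 * x * hww
    rw [e]
    refine DV.L_add (DV.L_add ?_ ?_) ?_
    · exact DV.L_mono (by norm_num) (DV.L_mul hv.1 hLx)
    · exact DV.L_mono (by norm_num) (L_w (L_w (DV.L_mul hv.2.1 hLf.1)))
    · exact DV.L_mono (by norm_num) (L_w hLu.1)
  · simp only [Prod.snd_add, Prod.fst_add, Prod.smul_snd, Prod.smul_fst, smul_eq_mul]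
    have e : V.w⁻¹ * (V.w⁻¹ * v.1 * y + V.w * v.2.1 * f.2.1 + u.2.1) =
        V.w⁻¹ * (V.w⁻¹ * (v.1 * y)) + v.2.1 * f.2.1 + V.w⁻¹ * u.2.1 := by
      have hww : V.w⁻¹ * V.w = 1 := inv_mul_cancel₀ V.w_ne
      linear_combination v.2.1 * f.2.1 * hww
    rw [e]
    refine DV.L_add (DV.L_add ?_ ?_) ?_
    · exact DV.L_mono (by norm_num) (L_winv (L_winv (DV.L_mul hv.1 hy2)))
    · exact DV.L_mono (by norm_num) (DV.L_mul hv.2.1 hLf.2.1)
    · exact DV.L_mono (by norm_num) (L_winv hu1)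
  · simp only [Prod.snd_add, Prod.smul_snd]
    refine Lw_add (Lw_add ?_ ?_) hLu.2.2
    · have h3 : V.L (-1) (V.w⁻¹ * v.1) := DV.L_mono (by norm_num) (L_winv hv.1)
      exact Lw_mono (by norm_num) (Lw_smul h3 hw1)
    · exact Lw_mono (by norm_num) (Lw_smul (L_w hv.2.1) hLf.2.2)

theorem symm_entry (g : Iso A) : ((g⁻¹).1 (e₁ F m)).2.1 = (g.1 (e₁ F m)).2.1 := by
  rw [← pol_e₁ A ((g⁻¹).1 (e₁ F m)), ← Iso.pol g, Iso.apply_inv, pol_comm, pol_e₁]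

theorem crit2 (hA : An V A) {g : Iso A} (hg : g ∈ Kg V A) (h1 : V.L 1 (g.1 (e₁ F m)).2.1) :
    (tl V A)⁻¹ * g * tl V A ∈ Kg V A := by
  refine ⟨crit1 hA hg h1, ?_⟩
  have e : ((tl V A)⁻¹ * g * tl V A)⁻¹ = (tl V A)⁻¹ * g⁻¹ * tl V A := by group
  rw [e]
  refine crit1 hA (inv_mem hg) ?_
  rw [symm_entry]
  exact h1

theorem nrm (hA : An V A) {g : Iso A} (hg : g ∈ Kg V A) (h1 : g ∈ Bg A) :
    (tl V A)⁻¹ * g * tl V A ∈ Kg V A := by
  refine crit2 hA hg ?_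
  rw [mem_Bg.1 h1]
  exact V.L_zero 1

theorem ei_mem (hA : An V A) {u : Fin m → F} (hu : Lw V 0 u) : ei A u ∈ Kg V A := by
  have key : ∀ u : Fin m → F, Lw V 0 u → ∀ v, Lat V 0 v → Lat V 0 (eiF A u v) := by
    intro u hu v hv
    refine ⟨?_, hv.2.1, ?_⟩
    · refine DV.L_sub (DV.L_sub hv.1 ?_) ?_
      · exact DV.L_mono (by norm_num) (DV.L_mul hv.2.1 ((Lw_iff hA 0 u).1 hu))
      · exact DV.L_mono (by norm_num) (bf_L hA hu hv.2.2)
    · exact Lw_add hv.2.2 (Lw_mono (by norm_num) (Lw_smul hv.2.1 hu))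
  exact ⟨key u hu, key (-u) (Lw_neg hu)⟩

theorem sw_mem : sw A ∈ Kg V A :=
  ⟨fun _ hv => ⟨hv.2.1, hv.1, hv.2.2⟩, fun _ hv => ⟨hv.2.1, hv.1, hv.2.2⟩⟩

theorem ei_mem_B (u : Fin m → F) : ei A u ∈ Bg A := by
  rw [mem_Bg, ei_apply]
  refine Prod.ext ?_ ?_
  · simp [e₁]
  · simp [e₁]

theorem tl_mem_B : tl V A ∈ Bg A := by
  rw [mem_Bg, tl_apply]
  refine Prod.ext ?_ ?_
  · simp [e₁]
  · simp [e₁]

theorem dbl (hA : An V A) {g : Iso A} (hg : g ∈ Kg V A) :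
    (tl V A)⁻¹ * g * tl V A ∈ Kg V A ∨
      ∃ b ∈ Bg A, b⁻¹ * (g * tl V A) ∈ Kg V A ∧ b * tl V A ∈ Kg V A := by
  by_cases h1 : V.L 1 (g.1 (e₁ F m)).2.1
  · exact Or.inl (crit2 hA hg h1)
  right
  obtain ⟨x, hx⟩ : ∃ x, x = (g.1 (e₁ F m)).1 := ⟨_, rfl⟩
  obtain ⟨y, hy⟩ : ∃ y, y = (g.1 (e₁ F m)).2.1 := ⟨_, rfl⟩
  obtain ⟨w, hw⟩ : ∃ w, w = (g.1 (e₁ F m)).2.2 := ⟨_, rfl⟩
  have hge : g.1 (e₁ F m) = (x, y, w) := by rw [hx, hy, hw]
  have hLe := hg.1 _ Lat_e₁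
  rw [hge] at hLe h1
  obtain ⟨hLx, hLy, hLw⟩ := hLe
  simp only at hLx hLy hLw h1
  obtain ⟨hy0, hvy⟩ := unit_of hLy h1
  obtain ⟨u, hu⟩ : ∃ u, u = y⁻¹ • w := ⟨_, rfl⟩
  have hLu : Lw V 0 u := by
    rw [hu]
    have h2 : V.L 0 y⁻¹ := fun _ => by rw [V.v_inv hy0, hvy]; norm_num
    exact Lw_mono (by norm_num) (Lw_smul h2 hLw)
  have hk : sw A * ((ei A u)⁻¹ * g) ∈ Kg V A :=
    mul_mem sw_mem (mul_mem (inv_mem (ei_mem hA hLu)) hg)
  have hkB : sw A * ((ei A u)⁻¹ * g) ∈ Bg A := by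
    rw [mem_Bg, Iso.mul_apply, Iso.mul_apply, hge, ei_inv_apply, sw_apply]
    have h3 : w + y • (-u) = 0 := by
      rw [hu, smul_neg, smul_smul, mul_inv_cancel₀ hy0, one_smul, add_neg_cancel]
    have h4 := ((ei A u)⁻¹ * g).2 (e₁ F m)
    have h5 : ((ei A u)⁻¹ * g).1 (e₁ F m) = (x - y * qf A (-u) - bf A (-u) w, y, w + y • (-u)) := by
      rw [Iso.mul_apply, hge, ei_inv_apply]
    rw [h5, h3] at h4
    have h6 : (x - y * qf A (-u) - bf A (-u) w) * y = 0 := by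
      simpa [q, e₁, qf_zero] using h4
    have h7 := (mul_eq_zero.1 h6).resolve_right hy0
    refine Prod.ext h7 h3
  have h8 := nrm hA hk hkB
  refine ⟨ei A u * (tl V A)⁻¹, mul_mem (ei_mem_B u) (inv_mem tl_mem_B), ?_, ?_⟩
  · have hst : tl V A * sw A = sw A * (tl V A)⁻¹ := by
      apply Subtype.ext
      apply LinearEquiv.ext
      intro v
      change (tl V A).1 ((sw A).1 v) = (sw A).1 (((tl V A)⁻¹).1 v)
      rw [sw_apply, tl_apply, tl_inv_apply, sw_apply]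
    have hss : sw A * sw A = 1 := by
      apply Subtype.ext
      apply LinearEquiv.ext
      intro v
      rfl
    have e : (ei A u * (tl V A)⁻¹)⁻¹ * (g * tl V A) =
        sw A * ((tl V A)⁻¹ * (sw A * ((ei A u)⁻¹ * g)) * tl V A) := by
      have e1 : (ei A u * (tl V A)⁻¹)⁻¹ * (g * tl V A) =
          tl V A * ((ei A u)⁻¹ * g) * tl V A := by group
      have e2 : sw A * ((tl V A)⁻¹ * (sw A * ((ei A u)⁻¹ * g)) * tl V A) =
          (sw A * (tl V A)⁻¹) * (sw A * ((ei A u)⁻¹ * g)) * tl V A := by group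
      rw [e1, e2, ← hst]
      have e3 : tl V A * sw A * (sw A * ((ei A u)⁻¹ * g)) * tl V A =
          tl V A * (sw A * sw A) * ((ei A u)⁻¹ * g) * tl V A := by group
      rw [e3, hss, mul_one]
    rw [e]
    exact mul_mem sw_mem h8
  · rw [inv_mul_cancel_right]
    exact ei_mem hA hLu

end Pool.Agent.U722.OG
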