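import Pool.Agent.U722.OG.Val

/-!
# Orthogonal groups over a domain with a degree function

The congruence subgroups are treated as in `Pool.Agent.U709.Dom` (matrices of degree two, helper709).
-/

set_option autoImplicit false

namespace Pool.Agent.U722.OG

open Matrix
open Pool.Agent.U709.BT
open Pool.Agent.U709 (IsDegree Bd Bd_add Bd_neg v0 exists_DV)
open Pool.Agent.Y110.FJ (ClosedE)

variable {C : ∀ (G : Type) [Group G], Prop}

section cg

variable {R : Type} [CommRing R] {ι : Type} [Fintype ι] [DecidableEq ι]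

/-- the congruence subgroup -/
def Cg (J : Ideal R) : Subgroup (GL ι R) :=
  (GeneralLinearGroup.map (n := ι) (Ideal.Quotient.mk J)).ker

theorem mem_Cg {J : Ideal R} {g : GL ι R} :
    g ∈ Cg J ↔ ∀ i j, g.1 i j - (1 : Matrix ι ι R) i j ∈ J := by
  unfold Cg
  rw [MonoidHom.mem_ker]
  constructor
  · intro h i j
    rw [← Ideal.Quotient.eq_zero_iff_mem, map_sub, sub_eq_zero]
    have h1 : (GeneralLinearGroup.map (n := ι) (Ideal.Quotient.mk J) g).1 i j =
        (1 : Matrix ι ι (R ⧸ J)) i j := by
      rw [h]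
      rfl
    have h2 : (GeneralLinearGroup.map (n := ι) (Ideal.Quotient.mk J) g).1 i j =
      Ideal.Quotient.mk J (g.1 i j) := rfl
    rw [← h2, h1, Matrix.one_apply, Matrix.one_apply]
    split_ifs <;> simp
  · intro h
    apply GeneralLinearGroup.ext
    intro i j
    have h1 := h i j
    rw [← Ideal.Quotient.eq_zero_iff_mem, map_sub, sub_eq_zero] at h1
    change Ideal.Quotient.mk J (g.1 i j) = (1 : Matrix ι ι (R ⧸ J)) i j
    rw [h1, Matrix.one_apply, Matrix.one_apply]
    split_ifs <;> simp

theorem Cg_comm {J K : Ideal R} (hJK : J * J ≤ K) {x y : GL ι R} (hx : x ∈ Cg J)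
    (hy : y ∈ Cg J) : x * y * x⁻¹ * y⁻¹ ∈ Cg K := by
  have h1 : x * y * (y * x)⁻¹ ∈ Cg K := by
    unfold Cg
    rw [MonoidHom.mem_ker, map_mul, map_inv, mul_inv_eq_one]
    apply GeneralLinearGroup.ext
    intro i j
    change Ideal.Quotient.mk K ((x * y).1 i j) = Ideal.Quotient.mk K ((y * x).1 i j)
    rw [Ideal.Quotient.eq]
    have h2 : (x * y).1 i j - (y * x).1 i j = ((x.1 - 1) * (y.1 - 1) - (y.1 - 1) * (x.1 - 1)) i j := by
      have h3 : (x.1 - 1) * (y.1 - 1) - (y.1 - 1) * (x.1 - 1) = x.1 * y.1 - y.1 * x.1 := by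
        noncomm_ring
      rw [h3]
      rfl
    rw [h2, Matrix.sub_apply, Matrix.mul_apply, Matrix.mul_apply]
    apply hJK
    refine sub_mem (Ideal.sum_mem _ fun k _ => Ideal.mul_mem_mul (mem_Cg.1 hx _ _) (mem_Cg.1 hy _ _))
      (Ideal.sum_mem _ fun k _ => Ideal.mul_mem_mul (mem_Cg.1 hy _ _) (mem_Cg.1 hx _ _))
  have e : x * y * x⁻¹ * y⁻¹ = x * y * (y * x)⁻¹ := by group
  rwa [e]

theorem Cg_mono {J K : Ideal R} (h : J ≤ K) : Cg (ι := ι) J ≤ Cg K :=
  fun _ hx => mem_Cg.2 fun i j => h (mem_Cg.1 hx i j)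

/-- the quotient by the congruence subgroup of the kernel is the image -/
theorem quot_ker (hC : ClosedE C) {S : Type} [CommRing S] (φ : R →+* S)
    (Γ : Subgroup (GL ι R)) (hΓ : C (Γ.map (GeneralLinearGroup.map φ)))
    (N : Subgroup Γ) [hN : N.Normal] (h : ∀ x : Γ, x ∈ N ↔ x.1 ∈ Cg (RingHom.ker φ)) : C (Γ ⧸ N) := by
  have hker : ∀ g : GL ι R, g ∈ Cg (RingHom.ker φ) ↔ GeneralLinearGroup.map φ g = 1 := by
    intro g
    rw [mem_Cg]
    constructor
    · intro h1
      apply GeneralLinearGroup.ext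
      intro i j
      have h2 := h1 i j
      rw [RingHom.mem_ker, map_sub, sub_eq_zero] at h2
      change φ (g.1 i j) = (1 : Matrix ι ι S) i j
      rw [h2, Matrix.one_apply, Matrix.one_apply]
      split_ifs <;> simp
    · intro h1 i j
      rw [RingHom.mem_ker, map_sub, sub_eq_zero]
      have h2 : (GeneralLinearGroup.map φ g).1 i j = (1 : Matrix ι ι S) i j := by
        rw [h1]
        rfl
      have h3 : (GeneralLinearGroup.map φ g).1 i j = φ (g.1 i j) := rfl
      rw [← h3, h2, Matrix.one_apply, Matrix.one_apply]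
      split_ifs <;> simp
  let ψ := (GeneralLinearGroup.map (n := ι) φ).subgroupMap Γ
  have hψ : ∀ x : Γ, ψ x = 1 ↔ x ∈ N := by
    intro x
    rw [h x, hker]
    constructor
    · intro h1
      exact congrArg Subtype.val h1
    · intro h1
      exact Subtype.ext h1
  refine hC.base.of_injective _ _ (QuotientGroup.lift N ψ (fun x hx => (hψ x).2 hx)) ?_ hΓ
  rw [injective_iff_map_eq_one]
  intro a ha
  obtain ⟨x, rfl⟩ := QuotientGroup.mk_surjective a
  exact (QuotientGroup.eq_one_iff x).2 ((hψ x).1 ha)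

end cg

variable {R : Type} [CommRing R] {m : ℕ}

/-- the form is anisotropic with respect to the degree function -/
def AnD (δ : R → ℕ) (A : Matrix (Fin m) (Fin m) R) : Prop := ∀ w : Fin m → R, w ≠ 0 →
  ∃ i, w i ≠ 0 ∧ qf A w ≠ 0 ∧ δ (qf A w) = 2 * δ (w i) ∧ ∀ j, w j ≠ 0 → δ (w j) ≤ δ (w i)

theorem exists_num [IsDomain R] {ι : Type} [Finite ι] (w : ι → FractionRing R) :
    ∃ (c : R) (w' : ι → R), c ≠ 0 ∧ ∀ i, algebraMap R (FractionRing R) c * w i =
      algebraMap R (FractionRing R) (w' i) := by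
  obtain ⟨b, hb⟩ := IsLocalization.exist_integer_multiples_of_finite (nonZeroDivisors R) w
  choose w' hw' using hb
  refine ⟨b, w', nonZeroDivisors.ne_zero b.2, fun i => ?_⟩
  rw [hw' i, Algebra.smul_def]

/-- the isometries over the field of fractions -/
theorem map_mem [IsDomain R] {A : Matrix (Fin m) (Fin m) R} {g : GL (Ix m) R} (hg : g ∈ Orth A) :
    GeneralLinearGroup.map (algebraMap R (FractionRing R)) g ∈
      Orth (A.map (algebraMap R (FractionRing R))) := by
  intro v
  obtain ⟨c, v', hc, hv⟩ := exists_num v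
  have hinj : Function.Injective (algebraMap R (FractionRing R)) :=
    IsFractionRing.injective R (FractionRing R)
  have hc' : algebraMap R (FractionRing R) c ≠ 0 := by
    rwa [Ne, map_eq_zero_iff _ hinj]
  have h1 : algebraMap R (FractionRing R) c • v = fun i => algebraMap R (FractionRing R) (v' i) := by
    funext i
    exact hv i
  have h2 : (GeneralLinearGroup.map (algebraMap R (FractionRing R)) g).1 *ᵥ
      (fun i => algebraMap R (FractionRing R) (v' i)) =
        fun i => algebraMap R (FractionRing R) ((g.1 *ᵥ v') i) := by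
    funext i
    rw [Matrix.mulVec, Matrix.mulVec, dotProduct, dotProduct, map_sum]
    refine Finset.sum_congr rfl fun j _ => ?_
    rw [map_mul]
    rfl
  have h3 : Q (A.map (algebraMap R (FractionRing R)))
      ((GeneralLinearGroup.map (algebraMap R (FractionRing R)) g).1 *ᵥ
        (algebraMap R (FractionRing R) c • v)) =
      Q (A.map (algebraMap R (FractionRing R))) (algebraMap R (FractionRing R) c • v) := by
    rw [h1, h2, Q_map, Q_map, hg]
  rw [Matrix.mulVec_smul, Q_smul, Q_smul] at h3
  exact mul_left_cancel₀ (mul_ne_zero hc' hc') h3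

theorem An_of [IsDomain R] {δ : R → ℕ} {e : ℕ} (he : 0 < e) {V : DV (FractionRing R)}
    (hV : ∀ r : R, r ≠ 0 → (e : ℤ) * V.v (algebraMap R (FractionRing R) r) = - δ r)
    {A : Matrix (Fin m) (Fin m) R} (hA : AnD δ A) :
    An V (A.map (algebraMap R (FractionRing R))) := by
  intro w hw
  obtain ⟨c, w', hc, hcw⟩ := exists_num w
  have he' : (0 : ℤ) < e := by exact_mod_cast he
  have hinj : Function.Injective (algebraMap R (FractionRing R)) :=
    IsFractionRing.injective R (FractionRing R)
  have hne : ∀ {r : R}, r ≠ 0 → algebraMap R (FractionRing R) r ≠ 0 := by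
    intro r hr
    rwa [Ne, map_eq_zero_iff _ hinj]
  have hc' := hne hc
  have hiff : ∀ i, w i ≠ 0 ↔ w' i ≠ 0 := by
    intro i
    rw [not_iff_not]
    constructor
    · intro h
      have := hcw i
      rw [h, mul_zero] at this
      exact hinj (by rw [← this, map_zero])
    · intro h
      have := hcw i
      rw [h, map_zero] at this
      exact (mul_eq_zero.1 this).resolve_left hc'
  have hw' : w' ≠ 0 := by
    rintro rfl
    apply hw
    funext i
    by_contra h
    exact (hiff i).1 h rfl
  obtain ⟨i, hi, hq, hd, hmax⟩ := hA w' hw'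
  have h1 : (algebraMap R (FractionRing R) c * algebraMap R (FractionRing R) c) *
      qf (A.map (algebraMap R (FractionRing R))) w = algebraMap R (FractionRing R) (qf A w') := by
    rw [← qf_smul, ← qf_map]
    congr 1
    funext i
    exact hcw i
  have hq0 : qf (A.map (algebraMap R (FractionRing R))) w ≠ 0 := by
    intro h0
    rw [h0, mul_zero] at h1
    exact hne hq h1.symm
  -- valuations
  have h2 := congrArg V.v h1
  rw [V.map_mul _ _ (mul_ne_zero hc' hc') hq0, V.map_mul _ _ hc' hc'] at h2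
  have h3 : ∀ j, w j ≠ 0 → V.v (algebraMap R (FractionRing R) c) + V.v (w j) =
      V.v (algebraMap R (FractionRing R) (w' j)) := by
    intro j hj
    have := congrArg V.v (hcw j)
    rwa [V.map_mul _ _ hc' hj] at this
  have h4 := hV _ hq
  have h5 := hV _ hi
  have hi' := (hiff i).2 hi
  refine ⟨i, hi', hq0, ?_, ?_⟩
  · have h6 := h3 i hi'
    have h7 : (e : ℤ) * V.v (algebraMap R (FractionRing R) (qf A w')) =
        (e : ℤ) * (2 * V.v (algebraMap R (FractionRing R) (w' i))) := by
      rw [h4, hd]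
      push_cast
      linear_combination -2 * h5
    have h8 := mul_left_cancel₀ he'.ne' h7
    omega
  · intro j hj
    have h6 := h3 i hi'
    have h7 := h3 j hj
    have h8 := hV _ ((hiff j).1 hj)
    have h9 := hmax j ((hiff j).1 hj)
    have h10 : (e : ℤ) * V.v (algebraMap R (FractionRing R) (w' i)) ≤
        (e : ℤ) * V.v (algebraMap R (FractionRing R) (w' j)) := by
      rw [h5, h8]
      omega
    have h11 := le_of_mul_le_mul_left h10 he'
    omega

/-- **Orthogonal groups over a domain with a degree function.** -/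
theorem main_dom (hC : ClosedE C) (hS : ∀ (G : Type) [Group G], Group.IsSolvable G → C G)
    [IsDomain R] {S : Type} [CommRing S] {δ : R → ℕ} (hδ : IsDegree δ)
    {A : Matrix (Fin m) (Fin m) R} (hA : AnD δ A) (φ : R →+* S)
    (hφ : ∀ n : ℕ, ∃ k : ℕ, ∀ r ∈ (RingHom.ker φ) ^ k, r ≠ 0 → n < δ r)
    (Γ : Subgroup (GL (Ix m) R)) (hΓA : Γ ≤ Orth A)
    (hΓ : C (Γ.map (GeneralLinearGroup.map φ))) : C Γ := by
  by_cases hnt : ∃ r : R, r ≠ 0 ∧ δ r ≠ 0
  · obtain ⟨e, V, he, hV⟩ := exists_DV hδ hnt
    have he' : (0 : ℤ) < e := by exact_mod_cast he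
    obtain ⟨J, hJ⟩ : ∃ J, J = RingHom.ker φ := ⟨_, rfl⟩
    let N : ℕ → Subgroup Γ := fun k => (Cg (J ^ (k + 1))).subgroupOf Γ
    have hN : ∀ k, (N k).Normal := by
      intro k
      have : (Cg (ι := Ix m) (J ^ (k + 1))).Normal := MonoidHom.normal_ker _
      exact this.subgroupOf Γ
    have hinj : Function.Injective (algebraMap R (FractionRing R)) :=
      IsFractionRing.injective R (FractionRing R)
    let ρ : Γ →* Iso (A.map (algebraMap R (FractionRing R))) :=
      ((lin.comp (GeneralLinearGroup.map (n := Ix m) (algebraMap R (FractionRing R)))).comp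
        Γ.subtype).codRestrict _ (fun x => lin_mem (map_mem (hΓA x.2)))
    refine main_val hC hS (An_of he hV hA) ρ N ?_ ?_ ?_ ?_
    · intro k x hx
      exact Cg_mono (Ideal.pow_le_pow_right (by omega)) hx
    · intro k x hx y hy
      refine Cg_comm ?_ hx hy
      rw [← pow_add]
      exact Ideal.pow_le_pow_right (by omega)
    · refine quot_ker hC φ Γ hΓ (N 0) (fun x => ?_)
      rw [← hJ]
      change x.1 ∈ Cg (J ^ (0 + 1)) ↔ _
      rw [zero_add, pow_one]
    · intro n
      obtain ⟨k, hk⟩ := hφ (n * e)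
      refine ⟨k, fun x hx hb => ?_⟩
      have hx' : x.1 ∈ Cg (J ^ (k + 1)) := hx
      have hb' := entries (V := V)
        (g := GeneralLinearGroup.map (n := Ix m) (algebraMap R (FractionRing R)) x.1) hb
      have hB : ∀ i j, Bd δ (n * e) (x.1.1 i j) := by
        intro i j h0
        have h1 : algebraMap R (FractionRing R) (x.1.1 i j) ≠ 0 := by
          rwa [Ne, map_eq_zero_iff _ hinj]
        have h2 : -(n : ℤ) ≤ V.v (algebraMap R (FractionRing R) (x.1.1 i j)) := hb' i j h1
        have h3 := hV _ h0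
        have h4 : (e : ℤ) * (-(n : ℤ)) ≤ (e : ℤ) * V.v (algebraMap R (FractionRing R) (x.1.1 i j)) :=
          mul_le_mul_of_nonneg_left h2 he'.le
        rw [h3] at h4
        have h5 : (δ (x.1.1 i j) : ℤ) ≤ ((n * e : ℕ) : ℤ) := by
          push_cast
          linarith
        exact_mod_cast h5
      have hone : ∀ i j, Bd δ (n * e) ((1 : Matrix (Ix m) (Ix m) R) i j) := by
        intro i j h0
        rw [Matrix.one_apply] at h0 ⊢
        split_ifs at h0 ⊢ with h1
        · rw [hδ.one]
          exact Nat.zero_le _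
        · exact absurd rfl h0
      apply Subtype.ext
      apply GeneralLinearGroup.ext
      intro i j
      change x.1.1 i j = (1 : Matrix (Ix m) (Ix m) R) i j
      rw [← sub_eq_zero]
      by_contra hne
      have h1 := mem_Cg.1 hx' i j
      have h2 := hk _ (by rw [← hJ]; exact Ideal.pow_le_pow_right (by omega) h1) hne
      have h3 : Bd δ (n * e) (x.1.1 i j - (1 : Matrix (Ix m) (Ix m) R) i j) := by
        rw [sub_eq_add_neg]
        exact Bd_add hδ (hB i j) (Bd_neg hδ (hone i j))
      have h4 := h3 hne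
      omega
  · push Not at hnt
    have hJ : RingHom.ker φ = ⊥ := by
      obtain ⟨k, hk⟩ := hφ 0
      have h1 : (RingHom.ker φ) ^ k = ⊥ := by
        rw [eq_bot_iff]
        intro r hr
        by_contra h0
        have h0' : r ≠ 0 := h0
        have := hk r hr h0'
        have := hnt r h0'
        omega
      by_contra hne
      obtain ⟨r, hr, hr0⟩ := Submodule.exists_mem_ne_zero_of_ne_bot hne
      have h2 : r ^ k ∈ (RingHom.ker φ) ^ k := Ideal.pow_mem_pow hr k
      rw [h1, Ideal.mem_bot] at h2
      exact pow_ne_zero k hr0 h2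
    refine hC.base.of_injective _ _ ((GeneralLinearGroup.map (n := Ix m) φ).subgroupMap Γ) ?_ hΓ
    rw [← RingHom.injective_iff_ker_eq_bot] at hJ
    rw [injective_iff_map_eq_one]
    intro x hx
    have h1 : GeneralLinearGroup.map φ x.1 = 1 := congrArg Subtype.val hx
    apply Subtype.ext
    apply GeneralLinearGroup.ext
    intro i j
    apply hJ
    have h2 : φ (x.1.1 i j) = (1 : Matrix (Ix m) (Ix m) S) i j := by
      have : φ (x.1.1 i j) = (GeneralLinearGroup.map φ x.1).1 i j := rfl
      rw [this, h1]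
      rfl
    change φ (x.1.1 i j) = φ ((1 : Matrix (Ix m) (Ix m) R) i j)
    rw [h2, Matrix.one_apply, Matrix.one_apply]
    split_ifs <;> simp

end Pool.Agent.U722.OG
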