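import Pool.Agent.U722.OG.Poly
import Pool.Agent.U709.Fld
import Pool.Agent.U293.GE.Fld

/-!
# Orthogonal groups over polynomial rings over fields, and over finitely generated domains with one
place at infinity
-/

set_option autoImplicit false

namespace Pool.Agent.U722.OG

open Matrix
open Pool.Agent.U709 (IsDegree)
open Pool.Agent.Y110.FJ (ClosedE)

variable {C : ∀ (G : Type) [Group G], Prop} {m : ℕ}

/-- finite-dimensional extension fields -/
theorem gl_fin (hC : ClosedE C) {k : Type} [Field k] (hk : ∀ n : ℕ, C (GL (Fin n) k))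
    (L : Type) [Field L] [Algebra k L] [Module.Finite k L] : C (GL (Ix m) L) := by
  have : Module.Finite k (Matrix (Ix m) (Ix m) L) := Module.Finite.trans L _
  exact Pool.Agent.U709.fin_alg hC hk (Matrix (Ix m) (Ix m) L)

theorem orth_sub (hC : ClosedE C) {R : Type} [CommRing R] (A : Matrix (Fin m) (Fin m) R)
    (h : C (GL (Ix m) R)) : C (Orth A) :=
  hC.base.of_injective _ _ (Subgroup.subtype _) (Subgroup.subtype_injective _) h

/-- **polynomial rings over algebraic extensions** -/
theorem alg (hC : ClosedE C) (hS : ∀ (G : Type) [Group G], Group.IsSolvable G → C G)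
    {k : Type} [Field k] (hk : ∀ n : ℕ, C (GL (Fin n) k)) (K : Type) [Field K] [Algebra k K]
    [Algebra.IsAlgebraic k K] (σ : Type) {A : Matrix (Fin m) (Fin m) K} (hA : Anis A) :
    C (Orth (A.map (MvPolynomial.C (σ := σ)))) := by
  rw [mv hC hS σ K hA]
  exact orth_sub hC A (gl_fin hC (Pool.Agent.U293.GE.GL_alg (F := k) (K := K) hC hk) K)

/-- subrings -/
theorem alg_sub (hC : ClosedE C) (hS : ∀ (G : Type) [Group G], Group.IsSolvable G → C G)
    {k : Type} [Field k] (hk : ∀ n : ℕ, C (GL (Fin n) k)) (K : Type) [Field K] [Algebra k K]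
    [Algebra.IsAlgebraic k K] (σ : Type) (Z : Type) [CommRing Z] (ι : Z →+* K)
    (hι : Function.Injective ι) {A : Matrix (Fin m) (Fin m) Z} (hA : Anis (A.map ι)) :
    C (Orth (A.map (MvPolynomial.C (σ := σ)))) := by
  have h1 := alg hC hS hk K σ hA
  refine incl hC (MvPolynomial.map (σ := σ) ι) (MvPolynomial.map_injective ι hι) ?_
  have e : (A.map (MvPolynomial.C (σ := σ))).map (MvPolynomial.map (σ := σ) ι) =
      (A.map ι).map (MvPolynomial.C (σ := σ)) := by
    ext1 i j
    simp
  rw [e]
  exact h1

/-- **finitely generated domains with one place at infinity** -/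
theorem fin_type (hC : ClosedE C) (hS : ∀ (G : Type) [Group G], Group.IsSolvable G → C G)
    {k : Type} [Field k] (hk : ∀ n : ℕ, C (GL (Fin n) k)) {R : Type} [CommRing R] [IsDomain R]
    [Algebra k R] [Algebra.FiniteType k R] {δ : R → ℕ} (hδ : IsDegree δ)
    (hfin : ∀ n : ℕ, ∃ W : Submodule k R, Module.Finite k W ∧ ∀ r, r ≠ 0 → δ r ≤ n → r ∈ W)
    {A : Matrix (Fin m) (Fin m) R} (hA : AnD δ A) :
    C (Orth A) := by
  obtain ⟨M, hM⟩ := Ideal.exists_maximal R
  have hft : Algebra.FiniteType k (R ⧸ M) :=
    Algebra.FiniteType.of_surjective (Ideal.Quotient.mkₐ k M) (Ideal.Quotient.mkₐ_surjective k M)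
  let _ : Field (R ⧸ M) := Ideal.Quotient.field M
  have hf : Module.Finite k (R ⧸ M) := finite_of_finite_type_of_isJacobsonRing k (R ⧸ M)
  have h1 : C (GL (Ix m) (R ⧸ M)) := gl_fin hC hk (R ⧸ M)
  have hN : IsNoetherianRing R := Algebra.FiniteType.isNoetherianRing k R
  refine main_dom hC hS hδ hA (Ideal.Quotient.mk M) ?_ (Orth A) le_rfl ?_
  · rw [Ideal.mk_ker]
    intro n
    obtain ⟨W, hW, hWn⟩ := hfin n
    have hart : IsArtinian k W := inferInstance
    let f : ℕ →o (Submodule k W)ᵒᵈ :=
      ⟨fun j => OrderDual.toDual (((M ^ j).restrictScalars k).comap W.subtype), by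
        intro i j hij
        change ((M ^ j).restrictScalars k).comap W.subtype ≤
          ((M ^ i).restrictScalars k).comap W.subtype
        intro x hx
        exact Ideal.pow_le_pow_right hij hx⟩
    obtain ⟨p, hp⟩ := IsArtinian.monotone_stabilizes f
    refine ⟨p, fun r hr h0 => ?_⟩
    by_contra hn
    have hrW : r ∈ W := hWn r h0 (by omega)
    have hall : ∀ j, r ∈ M ^ j := by
      intro j
      rcases le_total p j with hj | hj
      · have h2 : f p = f j := hp j hj
        have h3 : (⟨r, hrW⟩ : W) ∈ ((M ^ p).restrictScalars k).comap W.subtype := hr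
        have h4 : ((M ^ p).restrictScalars k).comap W.subtype =
          ((M ^ j).restrictScalars k).comap W.subtype := h2
        rw [h4] at h3
        exact h3
      · exact Ideal.pow_le_pow_right hj hr
    have h5 : r ∈ (⨅ j : ℕ, M ^ j) := by
      rw [Ideal.mem_iInf]
      exact hall
    rw [Ideal.iInf_pow_eq_bot_of_isDomain M hM.ne_top] at h5
    exact h0 h5
  · exact hC.base.of_injective _ _ (Subgroup.subtype _) (Subgroup.subtype_injective _) h1

/-- positive definite forms are anisotropic -/
theorem anis_pos {K : Type} [Field K] [LinearOrder K] {A : Matrix (Fin m) (Fin m) K}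
    (hA : ∀ w : Fin m → K, w ≠ 0 → 0 < qf A w) : Anis A := by
  intro w hw
  by_contra h
  have := hA w h
  rw [hw] at this
  exact lt_irrefl _ this

end Pool.Agent.U722.OG
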