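import Mathlib

/-!
# Trees from parents, and the tree of a group with an Iwasawa decomposition
-/

set_option autoImplicit false

namespace Pool.Agent.U722.OG

open SimpleGraph

/-- a graph in which the neighbours of a vertex are its parent and its children, with levels, such that
any two vertices have a common ancestor, is a tree -/
theorem isTree_of_parent {V : Type} [Nonempty V] (T : SimpleGraph V) (p : V → V) (l : V → ℤ)
    (hl : ∀ v, l (p v) = l v + 1) (hadj : ∀ u v, T.Adj u v ↔ (v = p u ∨ u = p v))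
    (hc : ∀ u v, ∃ m n : ℕ, p^[m] u = p^[n] v) : T.IsTree := by
  classical
  refine ⟨?_, ?_⟩
  · have hr : ∀ (n : ℕ) (v : V), T.Reachable v (p^[n] v) := by
      intro n
      induction n with
      | zero => intro v; exact Reachable.refl v
      | succ n ih =>
        intro v
        rw [Function.iterate_succ_apply]
        have h1 : T.Adj v (p v) := (hadj _ _).2 (Or.inl rfl)
        exact h1.reachable.trans (ih (p v))
    refine { preconnected := fun u v => ?_, nonempty := inferInstance }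
    obtain ⟨m, n, h⟩ := hc u v
    have h1 := hr m u
    rw [h] at h1
    exact h1.trans (hr n v).symm
  · intro v c hc
    obtain ⟨w, hw, hmin⟩ := c.support.toFinset.exists_min_image l
      ⟨v, by simp⟩
    have hw' : w ∈ c.support := by simpa using hw
    have hc' := hc.rotate hw'
    obtain ⟨c', hcc⟩ : ∃ c' : T.Walk w w, c' = c.rotate w hw' := ⟨_, rfl⟩
    rw [← hcc] at hc'
    have hsub : ∀ x ∈ c'.support, l w ≤ l x := by
      intro x hx
      apply hmin
      rw [List.mem_toFinset]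
      rw [hcc] at hx
      exact (SimpleGraph.Walk.mem_support_rotate_iff ..).1 hx
    have hn : ¬ c'.Nil := hc'.not_nil
    have a1 := c'.adj_snd hn
    have a2 := c'.adj_penultimate hn
    have key : ∀ x ∈ c'.support, T.Adj w x → x = p w := by
      intro x hx hadj'
      rcases (hadj _ _).1 hadj' with h | h
      · exact h
      · have h1 := hl x
        rw [← h] at h1
        have h2 := hsub x hx
        omega
    exact hc'.snd_ne_penultimate ((key _ (c'.getVert_mem_support _) a1).trans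
      (key _ (c'.getVert_mem_support _) a2.symm).symm)

/-- a group with an Iwasawa decomposition: `K` is the stabilizer of a vertex, `B` the stabilizer of
an end, `s` a translation towards the end -/
structure Iwa (G : Type) [Group G] where
  K : Subgroup G
  B : Subgroup G
  s : G
  l : G → ℤ
  s_mem : s ∈ B
  l_mul : ∀ a ∈ B, ∀ b ∈ B, l (a * b) = l a + l b
  l_s : l s = 1
  l_K : ∀ k ∈ K, k ∈ B → l k = 0
  iwa : ∀ g : G, ∃ b ∈ B, b⁻¹ * g ∈ K
  nrm : ∀ k ∈ K, k ∈ B → s⁻¹ * k * s ∈ K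
  dbl : ∀ k ∈ K, s⁻¹ * k * s ∈ K ∨ ∃ b ∈ B, b⁻¹ * (k * s) ∈ K ∧ b * s ∈ K
  anc : ∀ b ∈ B, ∃ m n : ℕ, (s ^ m)⁻¹ * b * s ^ n ∈ K

namespace Iwa

variable {G : Type} [Group G] (I : Iwa G)

theorem s_not_mem : I.s ∉ I.K := fun h => by
  have := I.l_K _ h I.s_mem
  rw [I.l_s] at this
  exact one_ne_zero this

/-- the tree -/
def tr : SimpleGraph (G ⧸ I.K) where
  Adj x y := ∃ g : G, (x = QuotientGroup.mk g ∧ y = QuotientGroup.mk (g * I.s)) ∨
    (y = QuotientGroup.mk g ∧ x = QuotientGroup.mk (g * I.s))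
  symm := ⟨by
    rintro x y ⟨g, h | h⟩
    · exact ⟨g, Or.inr h⟩
    · exact ⟨g, Or.inl h⟩⟩
  loopless := ⟨by
    rintro x ⟨g, ⟨h1, h2⟩ | ⟨h1, h2⟩⟩ <;>
    · rw [h1, QuotientGroup.eq] at h2
      rw [inv_mul_cancel_left] at h2
      exact I.s_not_mem h2⟩

theorem tr_act (g : G) (u w : G ⧸ I.K) (h : I.tr.Adj u w) : I.tr.Adj (g • u) (g • w) := by
  obtain ⟨a, ⟨h1, h2⟩ | ⟨h1, h2⟩⟩ := h
  · refine ⟨g * a, Or.inl ⟨?_, ?_⟩⟩
    · rw [h1]; rfl
    · rw [h2, mul_assoc]; rfl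
  · refine ⟨g * a, Or.inr ⟨?_, ?_⟩⟩
    · rw [h1]; rfl
    · rw [h2, mul_assoc]; rfl

theorem exists_rep (x : G ⧸ I.K) : ∃ b ∈ I.B, x = QuotientGroup.mk b := by
  obtain ⟨g, rfl⟩ := QuotientGroup.mk_surjective x
  obtain ⟨b, hb, h⟩ := I.iwa g
  exact ⟨b, hb, (QuotientGroup.eq.2 h).symm⟩

/-- a representative in `B` -/
noncomputable def rep (x : G ⧸ I.K) : G := (I.exists_rep x).choose

theorem rep_mem (x : G ⧸ I.K) : I.rep x ∈ I.B := (I.exists_rep x).choose_spec.1

theorem rep_eq (x : G ⧸ I.K) : x = QuotientGroup.mk (I.rep x) := (I.exists_rep x).choose_spec.2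

/-- the parent -/
noncomputable def par (x : G ⧸ I.K) : G ⧸ I.K := QuotientGroup.mk (I.rep x * I.s)

theorem rel {b : G} (hb : b ∈ I.B) : ∃ k ∈ I.K, k ∈ I.B ∧ I.rep (QuotientGroup.mk b) = b * k := by
  have h := I.rep_eq (QuotientGroup.mk b)
  rw [QuotientGroup.eq] at h
  refine ⟨_, h, mul_mem (inv_mem hb) (I.rep_mem _), ?_⟩
  rw [mul_inv_cancel_left]

theorem par_mk {b : G} (hb : b ∈ I.B) : I.par (QuotientGroup.mk b) = QuotientGroup.mk (b * I.s) := by
  obtain ⟨k, hk, hk', h⟩ := I.rel hb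
  unfold par
  rw [h, eq_comm, QuotientGroup.eq]
  have := I.nrm k hk hk'
  have e : (b * I.s)⁻¹ * (b * k * I.s) = I.s⁻¹ * k * I.s := by group
  rwa [e]

theorem par_iter {b : G} (hb : b ∈ I.B) (n : ℕ) :
    I.par^[n] (QuotientGroup.mk b) = QuotientGroup.mk (b * I.s ^ n) := by
  induction n with
  | zero => rw [pow_zero, mul_one]; rfl
  | succ n ih =>
    rw [Function.iterate_succ_apply', ih, I.par_mk (mul_mem hb (pow_mem I.s_mem n)), pow_succ,
      mul_assoc]

/-- the level -/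
noncomputable def lv (x : G ⧸ I.K) : ℤ := I.l (I.rep x)

theorem lv_mk {b : G} (hb : b ∈ I.B) : I.lv (QuotientGroup.mk b) = I.l b := by
  obtain ⟨k, hk, hk', h⟩ := I.rel hb
  unfold lv
  rw [h, I.l_mul _ hb _ hk', I.l_K k hk hk', add_zero]

theorem adj_iff (x y : G ⧸ I.K) : I.tr.Adj x y ↔ (y = I.par x ∨ x = I.par y) := by
  have key : ∀ g : G, (QuotientGroup.mk (g * I.s) : G ⧸ I.K) = I.par (QuotientGroup.mk g) ∨
      (QuotientGroup.mk g : G ⧸ I.K) = I.par (QuotientGroup.mk (g * I.s)) := by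
    intro g
    obtain ⟨b, hb, hk⟩ := I.iwa g
    have e1 : (QuotientGroup.mk g : G ⧸ I.K) = QuotientGroup.mk b := (QuotientGroup.eq.2 hk).symm
    rcases I.dbl _ hk with h | ⟨c, hc, h1, h2⟩
    · left
      rw [e1, I.par_mk hb, eq_comm, QuotientGroup.eq]
      have e : (b * I.s)⁻¹ * (g * I.s) = I.s⁻¹ * (b⁻¹ * g) * I.s := by group
      rwa [e]
    · right
      have e2 : (QuotientGroup.mk (g * I.s) : G ⧸ I.K) = QuotientGroup.mk (b * c) := by
        rw [eq_comm, QuotientGroup.eq]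
        have e : (b * c)⁻¹ * (g * I.s) = c⁻¹ * (b⁻¹ * g * I.s) := by group
        rwa [e]
      rw [e2, e1, I.par_mk (mul_mem hb hc), QuotientGroup.eq]
      have e : b⁻¹ * (b * c * I.s) = c * I.s := by group
      rwa [e]
  constructor
  · rintro ⟨g, ⟨rfl, rfl⟩ | ⟨rfl, rfl⟩⟩
    · exact key g
    · exact (key g).symm
  · rintro (h | h)
    · obtain ⟨b, hb, rfl⟩ := I.exists_rep x
      rw [I.par_mk hb] at h
      exact ⟨b, Or.inl ⟨rfl, h⟩⟩
    · obtain ⟨b, hb, rfl⟩ := I.exists_rep y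
      rw [I.par_mk hb] at h
      exact ⟨b, Or.inr ⟨rfl, h⟩⟩

theorem isTree : I.tr.IsTree := by
  have : Nonempty (G ⧸ I.K) := ⟨QuotientGroup.mk 1⟩
  refine isTree_of_parent I.tr I.par I.lv ?_ I.adj_iff ?_
  · intro x
    obtain ⟨b, hb, rfl⟩ := I.exists_rep x
    rw [I.par_mk hb, I.lv_mk hb, I.lv_mk (mul_mem hb I.s_mem), I.l_mul _ hb _ I.s_mem, I.l_s]
  · intro x y
    obtain ⟨b, hb, rfl⟩ := I.exists_rep x
    obtain ⟨c, hc, rfl⟩ := I.exists_rep y
    obtain ⟨m, n, h⟩ := I.anc (b⁻¹ * c) (mul_mem (inv_mem hb) hc)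
    refine ⟨m, n, ?_⟩
    rw [I.par_iter hb, I.par_iter hc, QuotientGroup.eq]
    have e : (b * I.s ^ m)⁻¹ * (c * I.s ^ n) = (I.s ^ m)⁻¹ * (b⁻¹ * c) * I.s ^ n := by group
    rwa [e]

theorem stab_iff (g b : G) :
    g • (QuotientGroup.mk b : G ⧸ I.K) = QuotientGroup.mk b ↔ b⁻¹ * g * b ∈ I.K := by
  have e : g • (QuotientGroup.mk b : G ⧸ I.K) = QuotientGroup.mk (g * b) := rfl
  rw [e, eq_comm, QuotientGroup.eq, mul_assoc]

end Iwa

end Pool.Agent.U722.OG
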