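import Pool.Agent.U709.BT
import Pool.Agent.U722.OG.Tree

/-!
# Quadratic forms of Witt index one over a field with a discrete valuation
-/

set_option autoImplicit false

namespace Pool.Agent.U722.OG

open Pool.Agent.U709.BT

section form

variable {R : Type} [CommRing R] {m : ℕ}

/-- the quadratic form `∑ A i j w_i w_j` -/
def qf (A : Matrix (Fin m) (Fin m) R) (w : Fin m → R) : R := ∑ i, ∑ j, A i j * w i * w j

/-- its polar form -/
def bf (A : Matrix (Fin m) (Fin m) R) (w w' : Fin m → R) : R :=
  ∑ i, ∑ j, A i j * (w i * w' j + w' i * w j)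

variable (A : Matrix (Fin m) (Fin m) R)

theorem qf_add (w w' : Fin m → R) : qf A (w + w') = qf A w + bf A w w' + qf A w' := by
  unfold qf bf
  rw [← Finset.sum_add_distrib, ← Finset.sum_add_distrib]
  refine Finset.sum_congr rfl fun i _ => ?_
  rw [← Finset.sum_add_distrib, ← Finset.sum_add_distrib]
  refine Finset.sum_congr rfl fun j _ => ?_
  simp only [Pi.add_apply]
  ring

theorem qf_smul (c : R) (w : Fin m → R) : qf A (c • w) = c * c * qf A w := by
  unfold qf
  rw [Finset.mul_sum]
  refine Finset.sum_congr rfl fun i _ => ?_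
  rw [Finset.mul_sum]
  refine Finset.sum_congr rfl fun j _ => ?_
  simp only [Pi.smul_apply, smul_eq_mul]
  ring

theorem qf_neg (w : Fin m → R) : qf A (-w) = qf A w := by
  have := qf_smul A (-1) w
  rw [neg_one_smul] at this
  rw [this]
  ring

theorem qf_zero : qf A 0 = 0 := by simp [qf]

theorem bf_comm (w w' : Fin m → R) : bf A w w' = bf A w' w := by
  unfold bf
  refine Finset.sum_congr rfl fun i _ => Finset.sum_congr rfl fun j _ => ?_
  ring

theorem bf_add (w w' w'' : Fin m → R) : bf A w (w' + w'') = bf A w w' + bf A w w'' := by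
  unfold bf
  rw [← Finset.sum_add_distrib]
  refine Finset.sum_congr rfl fun i _ => ?_
  rw [← Finset.sum_add_distrib]
  refine Finset.sum_congr rfl fun j _ => ?_
  simp only [Pi.add_apply]
  ring

theorem bf_smul (c : R) (w w' : Fin m → R) : bf A w (c • w') = c * bf A w w' := by
  unfold bf
  rw [Finset.mul_sum]
  refine Finset.sum_congr rfl fun i _ => ?_
  rw [Finset.mul_sum]
  refine Finset.sum_congr rfl fun j _ => ?_
  simp only [Pi.smul_apply, smul_eq_mul]
  ring

theorem bf_add_left (w w' w'' : Fin m → R) : bf A (w' + w'') w = bf A w' w + bf A w'' w := by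
  rw [bf_comm, bf_add, bf_comm A w w', bf_comm A w w'']

theorem bf_smul_left (c : R) (w w' : Fin m → R) : bf A (c • w') w = c * bf A w' w := by
  rw [bf_comm, bf_smul, bf_comm]

theorem bf_neg_left (w w' : Fin m → R) : bf A (-w') w = - bf A w' w := by
  have := bf_smul_left A (-1) w w'
  rw [neg_one_smul] at this
  rw [this]
  ring

theorem bf_zero_left (w : Fin m → R) : bf A 0 w = 0 := by simp [bf]

theorem bf_zero_right (w : Fin m → R) : bf A w 0 = 0 := by simp [bf]

/-- the vector space: hyperbolic plane plus `R ^ m` -/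
abbrev E (R : Type) (m : ℕ) : Type := R × R × (Fin m → R)

/-- the quadratic form `x y + q₀(w)` -/
def q (v : E R m) : R := v.1 * v.2.1 + qf A v.2.2

/-- its polar form -/
def pol (v v' : E R m) : R := v.1 * v'.2.1 + v'.1 * v.2.1 + bf A v.2.2 v'.2.2

theorem q_add (v v' : E R m) : q A (v + v') = q A v + pol A v v' + q A v' := by
  unfold q pol
  rw [Prod.snd_add, Prod.snd_add, qf_add]
  simp only [Prod.fst_add]
  ring

theorem q_smul (c : R) (v : E R m) : q A (c • v) = c * c * q A v := by
  unfold q
  rw [Prod.smul_snd, Prod.smul_snd, qf_smul]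
  simp only [Prod.smul_fst, smul_eq_mul]
  ring

theorem pol_comm (v v' : E R m) : pol A v v' = pol A v' v := by
  unfold pol
  rw [bf_comm]
  ring

/-- first basis vector -/
def e₁ (R : Type) [CommRing R] (m : ℕ) : E R m := (1, 0, 0)

/-- second basis vector -/
def e₂ (R : Type) [CommRing R] (m : ℕ) : E R m := (0, 1, 0)

theorem pol_e₁ (v : E R m) : pol A v (e₁ R m) = v.2.1 := by
  simp [pol, e₁, bf_zero_right]

theorem pol_e₂ (v : E R m) : pol A v (e₂ R m) = v.1 := by
  simp [pol, e₂, bf_zero_right]

end form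

section field

variable {F : Type} [Field F] {m : ℕ} (A : Matrix (Fin m) (Fin m) F)

/-- the isometry group of the form -/
def Iso : Subgroup (E F m ≃ₗ[F] E F m) where
  carrier := {g | ∀ v, q A (g v) = q A v}
  one_mem' := fun _ => rfl
  mul_mem' := by
    intro g h hg hh v
    rw [LinearEquiv.mul_apply, hg, hh]
  inv_mem' := by
    intro g hg v
    have h1 := hg (g⁻¹ v)
    have h2 : g (g⁻¹ v) = v := LinearEquiv.apply_symm_apply g v
    rw [h2] at h1
    exact h1.symm

variable {A}

theorem Iso.pol (g : Iso A) (v v' : E F m) : pol A (g.1 v) (g.1 v') = pol A v v' := by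
  have h1 := g.2 (v + v')
  rw [map_add, q_add, q_add, g.2 v, g.2 v'] at h1
  linear_combination h1

theorem Iso.inv_apply (g : Iso A) (v : E F m) : (g⁻¹).1 (g.1 v) = v :=
  LinearEquiv.symm_apply_apply g.1 v

theorem Iso.apply_inv (g : Iso A) (v : E F m) : g.1 ((g⁻¹).1 v) = v :=
  LinearEquiv.apply_symm_apply g.1 v

theorem Iso.mul_apply (g h : Iso A) (v : E F m) : (g * h).1 v = g.1 (h.1 v) := rfl

variable (A)

/-- the diagonal isometry -/
def dg (c : F) (hc : c ≠ 0) : Iso A :=
  ⟨{ toFun := fun v => (c * v.1, c⁻¹ * v.2.1, v.2.2)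
     invFun := fun v => (c⁻¹ * v.1, c * v.2.1, v.2.2)
     map_add' := by
       intro v v'
       simp only [Prod.fst_add, Prod.snd_add, mul_add, Prod.mk_add_mk]
     map_smul' := by
       intro a v
       simp only [Prod.smul_fst, Prod.smul_snd, smul_eq_mul, RingHom.id_apply, Prod.smul_mk]
       rw [mul_left_comm, mul_left_comm c⁻¹]
     left_inv := by
       intro v
       simp only [← mul_assoc, inv_mul_cancel₀ hc, mul_inv_cancel₀ hc, one_mul]
     right_inv := by
       intro v
       simp only [← mul_assoc, inv_mul_cancel₀ hc, mul_inv_cancel₀ hc, one_mul] }, by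
    intro v
    change (c * v.1) * (c⁻¹ * v.2.1) + qf A v.2.2 = _
    unfold q
    congr 1
    field_simp⟩

theorem dg_apply (c : F) (hc : c ≠ 0) (v : E F m) :
    (dg A c hc).1 v = (c * v.1, c⁻¹ * v.2.1, v.2.2) := rfl

theorem dg_inv_apply (c : F) (hc : c ≠ 0) (v : E F m) :
    ((dg A c hc)⁻¹).1 v = (c⁻¹ * v.1, c * v.2.1, v.2.2) := rfl

/-- the swap -/
def sw : Iso A :=
  ⟨{ toFun := fun v => (v.2.1, v.1, v.2.2)
     invFun := fun v => (v.2.1, v.1, v.2.2)
     map_add' := fun _ _ => rfl
     map_smul' := fun _ _ => rfl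
     left_inv := fun _ => rfl
     right_inv := fun _ => rfl }, by
    intro v
    change v.2.1 * v.1 + qf A v.2.2 = _
    unfold q
    rw [mul_comm]⟩

theorem sw_apply (v : E F m) : (sw A).1 v = (v.2.1, v.1, v.2.2) := rfl

theorem sw_inv_apply (v : E F m) : ((sw A)⁻¹).1 v = (v.2.1, v.1, v.2.2) := rfl

/-- the function of the Eichler isometry -/
def eiF (u : Fin m → F) (v : E F m) : E F m :=
  (v.1 - v.2.1 * qf A u - bf A u v.2.2, v.2.1, v.2.2 + v.2.1 • u)

theorem eiF_eiF (u : Fin m → F) (v : E F m) : eiF A (-u) (eiF A u v) = v := by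
  unfold eiF
  refine Prod.ext ?_ (Prod.ext rfl ?_)
  · simp only
    rw [qf_neg, bf_neg_left, bf_add, bf_smul]
    have h : bf A u u = 2 * qf A u := by
      unfold bf qf
      rw [Finset.mul_sum]
      refine Finset.sum_congr rfl fun i _ => ?_
      rw [Finset.mul_sum]
      refine Finset.sum_congr rfl fun j _ => ?_
      ring
    rw [h]
    ring
  · simp only
    rw [smul_neg, add_neg_cancel_right]

/-- the Eichler isometry -/
def ei (u : Fin m → F) : Iso A :=
  ⟨{ toFun := eiF A u
     invFun := eiF A (-u)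
     map_add' := by
       intro v v'
       unfold eiF
       refine Prod.ext ?_ (Prod.ext rfl ?_)
       · simp only [Prod.fst_add, Prod.snd_add]
         rw [bf_add]
         ring
       · simp only [Prod.fst_add, Prod.snd_add]
         rw [add_smul]
         abel
     map_smul' := by
       intro a v
       unfold eiF
       refine Prod.ext ?_ (Prod.ext rfl ?_)
       · simp only [Prod.smul_fst, Prod.smul_snd, smul_eq_mul, RingHom.id_apply]
         rw [bf_smul]
         ring
       · simp only [Prod.smul_snd, Prod.smul_fst, RingHom.id_apply, smul_add, smul_smul,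
           smul_eq_mul]
     left_inv := eiF_eiF A u
     right_inv := by
       intro v
       have := eiF_eiF A (-u) v
       rwa [neg_neg] at this }, by
    intro v
    change q A (eiF A u v) = q A v
    unfold q eiF
    simp only
    rw [qf_add, qf_smul, bf_smul, bf_comm A v.2.2 u]
    ring⟩

theorem ei_apply (u : Fin m → F) (v : E F m) : (ei A u).1 v =
    (v.1 - v.2.1 * qf A u - bf A u v.2.2, v.2.1, v.2.2 + v.2.1 • u) := rfl

theorem ei_inv_apply (u : Fin m → F) (v : E F m) : ((ei A u)⁻¹).1 v =
    (v.1 - v.2.1 * qf A (-u) - bf A (-u) v.2.2, v.2.1, v.2.2 + v.2.1 • (-u)) := rfl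

end field

end Pool.Agent.U722.OG
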