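import Pool.Agent.U722.OG.Bld

/-!
# The Iwasawa decomposition and bounded stabilizers
-/

set_option autoImplicit false

namespace Pool.Agent.U722.OG

open Pool.Agent.U709.BT

variable {F : Type} [Field F] {V : DV F} {m : ℕ} {A : Matrix (Fin m) (Fin m) F}

/-- an isotropic vector with dominant second coordinate is moved to the line of `e₁` -/
theorem move (hA : An V A) (x y : F) (w : Fin m → F) (hq : x * y + qf A w = 0) (hy : y ≠ 0)
    (hxy : V.L (V.v y) x) : ∃ k ∈ Kg V A, (k.1 ((x, y, w) : E F m)).2 = 0 := by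
  obtain ⟨u, hu⟩ : ∃ u, u = y⁻¹ • w := ⟨_, rfl⟩
  have hLu : Lw V 0 u := by
    rw [Lw_iff hA 0, hu, qf_smul]
    have e : y⁻¹ * y⁻¹ * qf A w = - (y⁻¹ * x) := by
      have h1 : qf A w = - (x * y) := by linear_combination hq
      rw [h1]
      field_simp
    rw [e]
    have h2 : V.L (-(V.v y)) y⁻¹ := fun _ => by rw [V.v_inv hy]
    have h3 := DV.L_mul h2 hxy
    rw [neg_add_cancel] at h3
    exact DV.L_neg h3
  refine ⟨sw A * (ei A u)⁻¹, mul_mem sw_mem (inv_mem (ei_mem hA hLu)), ?_⟩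
  rw [Iso.mul_apply, ei_inv_apply, sw_apply]
  have h3 : w + y • (-u) = 0 := by
    rw [hu, smul_neg, smul_smul, mul_inv_cancel₀ hy, one_smul, add_neg_cancel]
  have h4 := ((ei A u)⁻¹).2 ((x, y, w) : E F m)
  rw [ei_inv_apply] at h4
  simp only at h4
  rw [h3] at h4
  have h6 : (x - y * qf A (-u) - bf A (-u) w) * y = 0 := by
    have h7 : q A ((x, y, w) : E F m) = 0 := hq
    rw [h7] at h4
    simpa [q, qf_zero] using h4
  have h7 := (mul_eq_zero.1 h6).resolve_right hy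
  exact Prod.ext h7 h3

theorem iwa (hA : An V A) (g : Iso A) : ∃ b ∈ Bg A, b⁻¹ * g ∈ Kg V A := by
  obtain ⟨x, hx⟩ : ∃ x, x = ((g⁻¹).1 (e₁ F m)).1 := ⟨_, rfl⟩
  obtain ⟨y, hy⟩ : ∃ y, y = ((g⁻¹).1 (e₁ F m)).2.1 := ⟨_, rfl⟩
  obtain ⟨w, hw⟩ : ∃ w, w = ((g⁻¹).1 (e₁ F m)).2.2 := ⟨_, rfl⟩
  have hge : (g⁻¹).1 (e₁ F m) = (x, y, w) := by rw [hx, hy, hw]
  have hq : x * y + qf A w = 0 := by
    have := (g⁻¹).2 (e₁ F m)
    rw [hge] at this
    simpa [q, e₁, qf_zero] using this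
  have key : ∃ k ∈ Kg V A, (k.1 ((x, y, w) : E F m)).2 = 0 := by
    by_cases hc : x ≠ 0 ∧ V.L (V.v x) y
    · obtain ⟨k, hk, hk'⟩ := move hA y x w (by rw [mul_comm]; exact hq) hc.1 hc.2
      refine ⟨k * sw A, mul_mem hk sw_mem, ?_⟩
      rw [Iso.mul_apply, sw_apply]
      exact hk'
    · have hy0 : y ≠ 0 := by
        intro hy0
        apply hc
        refine ⟨?_, by rw [hy0]; exact V.L_zero _⟩
        intro hx0
        rw [hx0, hy0, mul_zero, zero_add] at hq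
        have hw0 : w = 0 := by
          by_contra hw0
          obtain ⟨i, -, h2, -⟩ := hA w hw0
          exact h2 hq
        rw [hx0, hy0, hw0] at hge
        have h1 := Iso.apply_inv g (e₁ F m)
        have h2 : ((0, 0, 0) : E F m) = 0 := rfl
        rw [hge, h2, map_zero] at h1
        have := congrArg Prod.fst h1
        simp [e₁] at this
      refine move hA x y w hq hy0 fun hx0 => ?_
      by_contra hlt
      exact hc ⟨hx0, fun _ => by omega⟩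
  obtain ⟨k, hk, hk'⟩ := key
  refine ⟨g * k⁻¹, ?_, ?_⟩
  · have h1 : (g * k⁻¹)⁻¹ ∈ Bg A := by
      rw [mul_inv_rev, inv_inv, mem_Bg, Iso.mul_apply, hge]
      exact hk'
    have := inv_mem h1
    rwa [inv_inv] at this
  · rw [mul_inv_rev, inv_inv, inv_mul_cancel_right]
    exact hk

theorem anc1 (hA : An V A) {b : Iso A} (hb : b ∈ Bg A) : ∃ N : ℕ, ∀ p n : ℕ, N ≤ p → N ≤ n →
    (p : ℤ) - n = - V.v (b.1 (e₁ F m)).1 → ∀ v, Lat V 0 v →
      Lat V 0 (((tl V A ^ p)⁻¹ * b * tl V A ^ n).1 v) := by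
  obtain ⟨N, hN⟩ := bnd (V := V) b.1
  refine ⟨N, fun p n hp hn hpn v hv => ?_⟩
  obtain ⟨a, ha⟩ : ∃ a, a = (b.1 (e₁ F m)).1 := ⟨_, rfl⟩
  have hbe : b.1 (e₁ F m) = a • e₁ F m := by rw [ha]; exact Bg_apply hb
  have ha0 : a ≠ 0 := by rw [ha]; exact Bg_ne hb
  rw [← ha] at hpn
  obtain ⟨u, hu⟩ : ∃ u, u = b.1 ((0, 0, v.2.2) : E F m) := ⟨_, rfl⟩
  have hLu : Lat V (0 - N) u := by
    rw [hu]
    exact hN 0 _ (Lat_e₃ hv.2.2)
  have hu1 : u.2.1 = 0 := by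
    have h3 := Iso.pol b ((0, 0, v.2.2) : E F m) (e₁ F m)
    rw [← hu, hbe, pol_e₁] at h3
    have h4 : pol A u (a • e₁ F m) = a * u.2.1 := by
      simp [pol, e₁, bf_zero_right]
    rw [h4] at h3
    exact (mul_eq_zero.1 h3).resolve_left ha0
  have hu2 : Lw V 0 u.2.2 := by
    have h3 := b.2 ((0, 0, v.2.2) : E F m)
    rw [← hu] at h3
    have h4 : qf A u.2.2 = qf A v.2.2 := by
      simpa [q, hu1] using h3
    rw [Lw_iff hA 0, h4]
    exact (Lw_iff hA 0 _).1 hv.2.2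
  obtain ⟨f, hf⟩ : ∃ f, f = b.1 (e₂ F m) := ⟨_, rfl⟩
  have hLf : Lat V (0 - N) f := by
    rw [hf]
    exact hN 0 _ Lat_e₂
  have hf1 : f.2.1 = a⁻¹ := by
    have h3 := Iso.pol b (e₂ F m) (e₁ F m)
    rw [← hf, hbe, pol_e₁] at h3
    have h4 : pol A f (a • e₁ F m) = a * f.2.1 := by
      simp [pol, e₁, bf_zero_right]
    rw [h4] at h3
    have h5 : (e₂ F m).2.1 = 1 := rfl
    rw [h5] at h3
    exact eq_inv_of_mul_eq_one_right h3
  have hva : V.L (V.v a) a := fun _ => le_rfl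
  have hva' : V.L (-(V.v a)) a⁻¹ := fun _ => by rw [V.v_inv ha0]
  rw [Iso.mul_apply, Iso.mul_apply, tl_pow_apply, split3, app3, hbe, ← hf, ← hu, tl_pow_inv_apply]
  refine ⟨?_, ?_, ?_⟩
  · have e : V.w ^ p * ((((V.w ^ n)⁻¹ * v.1) • a • e₁ F m + (V.w ^ n * v.2.1) • f + u : E F m).1) =
        V.w ^ p * ((V.w ^ n)⁻¹ * (v.1 * a)) + V.w ^ p * (V.w ^ n * (v.2.1 * f.1)) +
          V.w ^ p * u.1 := by
      simp only [Prod.fst_add, Prod.smul_fst, smul_eq_mul, e₁]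
      ring
    rw [e]
    refine DV.L_add (DV.L_add ?_ ?_) ?_
    · exact DV.L_mono (by omega) (L_pow p (L_pow_inv n (DV.L_mul hv.1 hva)))
    · exact DV.L_mono (by omega) (L_pow p (L_pow n (DV.L_mul hv.2.1 hLf.1)))
    · exact DV.L_mono (by omega) (L_pow p hLu.1)
  · have e : (V.w ^ p)⁻¹ * ((((V.w ^ n)⁻¹ * v.1) • a • e₁ F m + (V.w ^ n * v.2.1) • f + u : E F m).2.1) =
        (V.w ^ p)⁻¹ * (V.w ^ n * (v.2.1 * a⁻¹)) := by
      simp only [Prod.snd_add, Prod.fst_add, Prod.smul_snd, Prod.smul_fst, smul_eq_mul, e₁, hu1, hf1]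
      ring
    rw [e]
    exact DV.L_mono (by omega) (L_pow_inv p (L_pow n (DV.L_mul hv.2.1 hva')))
  · have e : (((V.w ^ n)⁻¹ * v.1) • a • e₁ F m + (V.w ^ n * v.2.1) • f + u : E F m).2.2 =
        (V.w ^ n * v.2.1) • f.2.2 + u.2.2 := by
      simp only [Prod.snd_add, Prod.smul_snd, e₁, smul_zero, zero_add]
    rw [e]
    exact Lw_add (Lw_mono (by omega) (Lw_smul (L_pow n hv.2.1) hLf.2.2)) hu2

theorem anc (hA : An V A) {b : Iso A} (hb : b ∈ Bg A) :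
    ∃ p n : ℕ, (tl V A ^ p)⁻¹ * b * tl V A ^ n ∈ Kg V A := by
  obtain ⟨N1, h1⟩ := anc1 hA hb
  obtain ⟨N2, h2⟩ := anc1 hA (inv_mem hb)
  obtain ⟨d, hd⟩ : ∃ d, d = V.v (b.1 (e₁ F m)).1 := ⟨_, rfl⟩
  have hd' : V.v ((b⁻¹).1 (e₁ F m)).1 = - d := by
    have h3 := Bg_mul (g := b⁻¹) hb
    rw [inv_mul_cancel] at h3
    have h4 : ((1 : Iso A).1 (e₁ F m)).1 = 1 := rfl
    rw [h4] at h3
    have h5 := V.map_mul _ _ (Bg_ne hb) (Bg_ne (inv_mem hb))
    rw [← h3, V.v_one] at h5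
    omega
  refine ⟨N1 + N2 + (-d).toNat, N1 + N2 + d.toNat, h1 _ _ (by omega) (by omega) (by omega), ?_⟩
  have e : ((tl V A ^ (N1 + N2 + (-d).toNat))⁻¹ * b * tl V A ^ (N1 + N2 + d.toNat))⁻¹ =
      (tl V A ^ (N1 + N2 + d.toNat))⁻¹ * b⁻¹ * tl V A ^ (N1 + N2 + (-d).toNat) := by group
  rw [e]
  exact h2 _ _ (by omega) (by omega) (by omega)

/-- the Iwasawa data -/
noncomputable def iwd (hA : An V A) : Iwa (Iso A) where
  K := Kg V A
  B := Bg A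
  s := tl V A
  l := fun g => - V.v (g.1 (e₁ F m)).1
  s_mem := tl_mem_B
  l_mul := by
    intro a ha b hb
    rw [Bg_mul hb, V.map_mul _ _ (Bg_ne hb) (Bg_ne ha)]
    ring
  l_s := by
    rw [tl_apply]
    have : V.w⁻¹ * (e₁ F m).1 = V.w⁻¹ := mul_one _
    simp only
    rw [this, V.v_inv V.w_ne, V.v_w]
    norm_num
  l_K := by
    intro k hk hkB
    have h1 := (hk.1 _ Lat_e₁).1 (Bg_ne hkB)
    have h2 := (hk.2 _ Lat_e₁).1 (Bg_ne (inv_mem hkB))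
    have h3 := Bg_mul (g := k⁻¹) hkB
    rw [inv_mul_cancel] at h3
    have h4 : ((1 : Iso A).1 (e₁ F m)).1 = 1 := rfl
    rw [h4] at h3
    have h5 := V.map_mul _ _ (Bg_ne hkB) (Bg_ne (inv_mem hkB))
    rw [← h3, V.v_one] at h5
    omega
  iwa := iwa hA
  nrm := fun k hk hkB => nrm hA hk hkB
  dbl := fun k hk => dbl hA hk
  anc := fun b hb => anc hA hb

/-- the elements which fix a vertex are bounded -/
theorem stab_bnd (hA : An V A) (x : Iso A ⧸ (iwd hA).K) : ∃ N : ℕ, ∀ g : Iso A, g • x = x →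
    ∀ v, Lat V 0 v → Lat V (-(N : ℤ)) (g.1 v) := by
  obtain ⟨b, rfl⟩ := QuotientGroup.mk_surjective x
  obtain ⟨N1, h1⟩ := bnd (V := V) b.1
  obtain ⟨N2, h2⟩ := bnd (V := V) (b⁻¹).1
  refine ⟨N1 + N2, fun g hg v hv => ?_⟩
  have hk : b⁻¹ * g * b ∈ Kg V A := ((iwd hA).stab_iff g b).1 hg
  have h3 := h2 0 v hv
  have h4 : Lat V (0 - N2) ((b⁻¹ * g * b).1 ((b⁻¹).1 v)) := by
    obtain ⟨c, hc, hvc⟩ := exists_v V N2
    have h5 : Lat V 0 (c • (b⁻¹).1 v) := by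
      have h6 : V.L (N2 : ℤ) c := fun _ => hvc.ge
      exact Lat_mono (by omega) (Lat_smul h6 h3)
    have h7 := hk.1 _ h5
    have h8 : V.L (-(N2 : ℤ)) c⁻¹ := fun _ => by rw [V.v_inv hc, hvc]
    have h9 := Lat_smul h8 h7
    rw [← map_smul, smul_smul, inv_mul_cancel₀ hc, one_smul] at h9
    exact Lat_mono (by omega) h9
  have h10 := h1 _ _ h4
  have e : b.1 ((b⁻¹ * g * b).1 ((b⁻¹).1 v)) = g.1 v := by
    change (b * (b⁻¹ * g * b) * b⁻¹).1 v = g.1 v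
    congr 2
    group
  rw [e] at h10
  exact Lat_mono (by push_cast; omega) h10

end Pool.Agent.U722.OG
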