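import Pool.Agent.U722.OG.Form

/-!
# The lattices
-/

set_option autoImplicit false

namespace Pool.Agent.U722.OG

open Pool.Agent.U709.BT

variable {F : Type} [Field F] (V : DV F) {m : ℕ} (A : Matrix (Fin m) (Fin m) F)

/-- `A` is anisotropic with respect to the valuation -/
def An : Prop := ∀ w : Fin m → F, w ≠ 0 → ∃ i, w i ≠ 0 ∧ qf A w ≠ 0 ∧
  V.v (qf A w) = 2 * V.v (w i) ∧ ∀ j, w j ≠ 0 → V.v (w i) ≤ V.v (w j)

/-- all entries of `w` have valuation at least `n` -/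
def Lw (n : ℤ) (w : Fin m → F) : Prop := ∀ i, V.L n (w i)

/-- the lattice `π ^ n L₀` -/
def Lat (n : ℤ) (v : E F m) : Prop := V.L n v.1 ∧ V.L n v.2.1 ∧ Lw V n v.2.2

variable {V A}

theorem Lw_zero (n : ℤ) : Lw V n (0 : Fin m → F) := fun _ => V.L_zero n

theorem Lw_add {n : ℤ} {w w' : Fin m → F} (h : Lw V n w) (h' : Lw V n w') : Lw V n (w + w') :=
  fun i => DV.L_add (h i) (h' i)

theorem Lw_neg {n : ℤ} {w : Fin m → F} (h : Lw V n w) : Lw V n (-w) := fun i => DV.L_neg (h i)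

theorem Lw_smul {k n : ℤ} {c : F} {w : Fin m → F} (hc : V.L k c) (h : Lw V n w) :
    Lw V (k + n) (c • w) := fun i => DV.L_mul hc (h i)

theorem Lw_mono {k n : ℤ} (hkn : k ≤ n) {w : Fin m → F} (h : Lw V n w) : Lw V k w :=
  fun i => DV.L_mono hkn (h i)

theorem Lat_zero (n : ℤ) : Lat V n (0 : E F m) := ⟨V.L_zero n, V.L_zero n, Lw_zero n⟩

theorem Lat_add {n : ℤ} {v v' : E F m} (h : Lat V n v) (h' : Lat V n v') : Lat V n (v + v') :=
  ⟨DV.L_add h.1 h'.1, DV.L_add h.2.1 h'.2.1, Lw_add h.2.2 h'.2.2⟩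

theorem Lat_smul {k n : ℤ} {c : F} {v : E F m} (hc : V.L k c) (h : Lat V n v) :
    Lat V (k + n) (c • v) := ⟨DV.L_mul hc h.1, DV.L_mul hc h.2.1, Lw_smul hc h.2.2⟩

theorem Lat_mono {k n : ℤ} (hkn : k ≤ n) {v : E F m} (h : Lat V n v) : Lat V k v :=
  ⟨DV.L_mono hkn h.1, DV.L_mono hkn h.2.1, Lw_mono hkn h.2.2⟩

theorem Lw_iff (hA : An V A) (n : ℤ) (w : Fin m → F) : Lw V n w ↔ V.L (2 * n) (qf A w) := by
  by_cases hw : w = 0
  · rw [hw, qf_zero]
    exact ⟨fun _ => V.L_zero _, fun _ => Lw_zero n⟩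
  obtain ⟨i, hi, hq, hv, hmin⟩ := hA w hw
  constructor
  · intro h _
    have := h i hi
    omega
  · intro h j hj
    have h1 := h hq
    have h2 := hmin j hj
    omega

theorem Lw_of_odd (hA : An V A) {n : ℤ} {w : Fin m → F} (h : V.L (2 * n + 1) (qf A w)) :
    Lw V (n + 1) w := by
  by_cases hw : w = 0
  · rw [hw]
    exact Lw_zero _
  obtain ⟨i, hi, hq, hv, hmin⟩ := hA w hw
  intro j hj
  have h1 := h hq
  have h2 := hmin j hj
  omega

variable (V) in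
theorem v_pow (n : ℕ) : V.v (V.w ^ n) = n := by
  induction n with
  | zero => rw [pow_zero, V.v_one]; rfl
  | succ n ih => rw [pow_succ, V.map_mul _ _ (pow_ne_zero _ V.w_ne) V.w_ne, ih, V.v_w]; push_cast; rfl

variable (V) in
theorem exists_v (k : ℤ) : ∃ c : F, c ≠ 0 ∧ V.v c = k := by
  rcases Int.eq_nat_or_neg k with ⟨n, rfl | rfl⟩
  · exact ⟨V.w ^ n, pow_ne_zero _ V.w_ne, v_pow V n⟩
  · exact ⟨(V.w ^ n)⁻¹, inv_ne_zero (pow_ne_zero _ V.w_ne), by
      rw [V.v_inv (pow_ne_zero _ V.w_ne), v_pow V n]⟩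

theorem bf_L (hA : An V A) {a b : ℤ} {w w' : Fin m → F} (h : Lw V a w) (h' : Lw V b w') :
    V.L (a + b) (bf A w w') := by
  obtain ⟨c, hc, hv⟩ := exists_v V (a - b)
  have h1 : Lw V a (c • w') := by
    have := Lw_smul (V := V) (k := a - b) (c := c) (fun _ => by rw [hv]) h'
    rwa [sub_add_cancel] at this
  have h2 := (Lw_iff hA a _).1 h
  have h3 := (Lw_iff hA a _).1 h1
  have h4 := (Lw_iff hA a _).1 (Lw_add h h1)
  rw [qf_add, bf_smul] at h4
  have h5 : V.L (2 * a) (c * bf A w w') := by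
    have := DV.L_sub (DV.L_sub h4 h3) h2
    have e : qf A w + c * bf A w w' + qf A (c • w') - qf A (c • w') - qf A w = c * bf A w w' := by ring
    rwa [e] at this
  have e2 : 2 * a = (a - b) + (a + b) := by ring
  rw [e2] at h5
  exact DV.L_of_mul hc hv h5

theorem exists_Lat (v : E F m) : ∃ N : ℕ, Lat V (-(N : ℤ)) v := by
  classical
  obtain ⟨N, hN⟩ : ∃ N : ℕ, ∀ i, (V.v (v.2.2 i)).natAbs ≤ N :=
    ⟨Finset.univ.sup (fun i => (V.v (v.2.2 i)).natAbs),
      fun i => Finset.le_sup (f := fun i => (V.v (v.2.2 i)).natAbs) (Finset.mem_univ i)⟩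
  refine ⟨(V.v v.1).natAbs + (V.v v.2.1).natAbs + N, fun _ => ?_, fun _ => ?_, fun i _ => ?_⟩
  · omega
  · omega
  · have := hN i
    omega

/-- the third basis vectors -/
def e₃ (F : Type) [Field F] {m : ℕ} (i : Fin m) : E F m := (0, 0, Pi.single i 1)

theorem decomp (v : E F m) : v = v.1 • e₁ F m + v.2.1 • e₂ F m + ∑ i, v.2.2 i • e₃ F i := by
  classical
  have h : (∑ i, v.2.2 i • e₃ F i : E F m) = (0, 0, v.2.2) := by
    refine Prod.ext ?_ (Prod.ext ?_ ?_)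
    · rw [Prod.fst_sum]
      simp [e₃]
    · rw [Prod.snd_sum, Prod.fst_sum]
      simp [e₃]
    · rw [Prod.snd_sum, Prod.snd_sum]
      ext j
      rw [Finset.sum_apply]
      simp [e₃, Pi.single_apply]
  rw [h]
  refine Prod.ext ?_ (Prod.ext ?_ ?_)
  · simp [e₁, e₂]
  · simp [e₁, e₂]
  · simp [e₁, e₂]

theorem Lat_sum {ι : Type} (s : Finset ι) {n : ℤ} (f : ι → E F m) (h : ∀ i ∈ s, Lat V n (f i)) :
    Lat V n (∑ i ∈ s, f i) := by
  classical
  induction s using Finset.induction_on with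
  | empty => exact Lat_zero n
  | insert a s ha ih =>
    rw [Finset.sum_insert ha]
    exact Lat_add (h _ (Finset.mem_insert_self _ _))
      (ih fun i hi => h i (Finset.mem_insert_of_mem hi))

/-- linear maps are bounded -/
theorem bnd (T : E F m ≃ₗ[F] E F m) : ∃ N : ℕ, ∀ (n : ℤ) (v : E F m), Lat V n v →
    Lat V (n - N) (T v) := by
  classical
  obtain ⟨N1, h1⟩ := exists_Lat (V := V) (T (e₁ F m))
  obtain ⟨N2, h2⟩ := exists_Lat (V := V) (T (e₂ F m))
  choose N3 h3 using fun i => exists_Lat (V := V) (T (e₃ F i))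
  obtain ⟨N4, h4⟩ : ∃ N : ℕ, ∀ i, N3 i ≤ N :=
    ⟨Finset.univ.sup N3, fun i => Finset.le_sup (Finset.mem_univ i)⟩
  refine ⟨N1 + N2 + N4, fun n v hv => ?_⟩
  rw [decomp v, map_add, map_add, map_sum, map_smul, map_smul]
  refine Lat_add (Lat_add ?_ ?_) (Lat_sum _ _ fun i _ => ?_)
  · exact Lat_mono (by push_cast; omega) (Lat_smul hv.1 h1)
  · exact Lat_mono (by push_cast; omega) (Lat_smul hv.2.1 h2)
  · rw [map_smul]
    have := h4 i
    exact Lat_mono (by push_cast; omega) (Lat_smul (hv.2.2 i) (h3 i))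

end Pool.Agent.U722.OG
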