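import Pool.Agent.U722.OG.Dom
import Pool.Agent.U709.Poly

/-!
# Orthogonal groups over polynomial rings and graded rings
-/

set_option autoImplicit false

namespace Pool.Agent.U722.OG

open Matrix
open Pool.Agent.U709.BT
open Pool.Agent.U709 (IsDegree isDegree_natDegree pow_dvd_of_mem)
open Pool.Agent.Y110.FJ (ClosedE)

variable {C : ∀ (G : Type) [Group G], Prop}

section change

variable {R : Type} [CommRing R] {m : ℕ}

/-- the polar form of `Q` -/
def P (A : Matrix (Fin m) (Fin m) R) (v v' : Ix m → R) : R :=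
  v (Sum.inl 0) * v' (Sum.inl 1) + v' (Sum.inl 0) * v (Sum.inl 1) +
    bf A (fun i => v (Sum.inr i)) (fun i => v' (Sum.inr i))

variable (A : Matrix (Fin m) (Fin m) R)

theorem Q_add (v v' : Ix m → R) : Q A (v + v') = Q A v + P A v v' + Q A v' := by
  unfold Q P
  have h : (fun i => (v + v') (Sum.inr i)) = (fun i => v (Sum.inr i)) + fun i => v' (Sum.inr i) := rfl
  rw [h, qf_add]
  simp only [Pi.add_apply]
  ring

theorem P_add (v v' v'' : Ix m → R) : P A v (v' + v'') = P A v v' + P A v v'' := by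
  unfold P
  have h : (fun i => (v' + v'') (Sum.inr i)) =
    (fun i => v' (Sum.inr i)) + fun i => v'' (Sum.inr i) := rfl
  rw [h, bf_add]
  simp only [Pi.add_apply]
  ring

theorem P_smul (c : R) (v v' : Ix m → R) : P A v (c • v') = c * P A v v' := by
  unfold P
  have h : (fun i => (c • v') (Sum.inr i)) = c • fun i => v' (Sum.inr i) := rfl
  rw [h, bf_smul]
  simp only [Pi.smul_apply, smul_eq_mul]
  ring

theorem P_comm (v v' : Ix m → R) : P A v v' = P A v' v := by
  unfold P
  rw [bf_comm]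
  ring

theorem P_zero (v : Ix m → R) : P A v 0 = 0 := by
  have := P_smul A 0 v 0
  rwa [zero_smul, zero_mul] at this

theorem Q_zero : Q A 0 = 0 := by
  have := Q_smul A 0 0
  rwa [zero_smul, zero_mul, zero_mul] at this

theorem bf_map {S : Type} [CommRing S] (φ : R →+* S) (w w' : Fin m → R) :
    bf (A.map φ) (fun i => φ (w i)) (fun i => φ (w' i)) = φ (bf A w w') := by
  unfold bf
  rw [map_sum]
  refine Finset.sum_congr rfl fun i _ => ?_
  rw [map_sum]
  refine Finset.sum_congr rfl fun j _ => ?_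
  rw [map_mul, map_add, map_mul, map_mul]
  rfl

theorem P_map {S : Type} [CommRing S] (φ : R →+* S) (v v' : Ix m → R) :
    P (A.map φ) (fun i => φ (v i)) (fun i => φ (v' i)) = φ (P A v v') := by
  unfold P
  rw [map_add, map_add, map_mul, map_mul, ← bf_map]

theorem span_ind {ι : Type} [Fintype ι] [DecidableEq ι] (p : (ι → R) → Prop) (h0 : p 0)
    (hadd : ∀ v v', p v → p v' → p (v + v')) (hsmul : ∀ (c : R) v, p v → p (c • v))
    (hb : ∀ i, p (Pi.single i 1)) (v : ι → R) : p v := by
  have h : ∀ s : Finset ι, p (∑ i ∈ s, v i • (Pi.single i 1 : ι → R)) := by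
    intro s
    induction s using Finset.induction_on with
    | empty => simpa using h0
    | insert a s ha ih =>
      rw [Finset.sum_insert ha]
      exact hadd _ _ (hsmul _ _ (hb a)) ih
  have h1 := h Finset.univ
  have h2 : (∑ i, v i • (Pi.single i 1 : ι → R)) = v := by
    ext j
    rw [Finset.sum_apply]
    simp [Pi.single_apply]
  rwa [h2] at h1

variable {A}

theorem Orth_P {g : GL (Ix m) R} (hg : g ∈ Orth A) (v v' : Ix m → R) :
    P A (g.1 *ᵥ v) (g.1 *ᵥ v') = P A v v' := by
  have h1 := hg (v + v')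
  rw [Matrix.mulVec_add, Q_add, Q_add, hg v, hg v'] at h1
  linear_combination h1

/-- change of rings -/
theorem Orth_map {S : Type} [CommRing S] (φ : R →+* S) {g : GL (Ix m) R} (hg : g ∈ Orth A) :
    GeneralLinearGroup.map φ g ∈ Orth (A.map φ) := by
  obtain ⟨G, hG⟩ : ∃ G, G = (GeneralLinearGroup.map φ g).1 := ⟨_, rfl⟩
  have hb : ∀ i : Ix m, G *ᵥ (Pi.single i 1) = fun j => φ ((g.1 *ᵥ (Pi.single i 1)) j) := by
    intro i
    funext j
    rw [Matrix.mulVec_single_one, Matrix.mulVec_single_one, hG]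
    rfl
  have hs : ∀ i : Ix m, (Pi.single i 1 : Ix m → S) = fun j => φ ((Pi.single i 1 : Ix m → R) j) := by
    intro i
    funext j
    rw [Pi.single_apply, Pi.single_apply]
    split_ifs <;> simp
  have h1 : ∀ i j : Ix m, P (A.map φ) (G *ᵥ (Pi.single i 1)) (G *ᵥ (Pi.single j 1)) =
      P (A.map φ) (Pi.single i 1) (Pi.single j 1) := by
    intro i j
    rw [hb, hb, P_map, Orth_P hg, hs i, hs j, P_map]
  have h2 : ∀ (i : Ix m) (v : Ix m → S), P (A.map φ) (G *ᵥ (Pi.single i 1)) (G *ᵥ v) =
      P (A.map φ) (Pi.single i 1) v := by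
    intro i
    refine span_ind _ ?_ ?_ ?_ (h1 i)
    · rw [Matrix.mulVec_zero, P_zero, P_zero]
    · intro v v' hv hv'
      rw [Matrix.mulVec_add, P_add, P_add, hv, hv']
    · intro c v hv
      rw [Matrix.mulVec_smul, P_smul, P_smul, hv]
  have h3 : ∀ (u v : Ix m → S), P (A.map φ) (G *ᵥ u) (G *ᵥ v) = P (A.map φ) u v := by
    intro u
    refine span_ind _ ?_ ?_ ?_ (fun i => ?_)
    · rw [Matrix.mulVec_zero, P_zero, P_zero]
    · intro v v' hv hv'
      rw [Matrix.mulVec_add, P_add, P_add, hv, hv']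
    · intro c v hv
      rw [Matrix.mulVec_smul, P_smul, P_smul, hv]
    · rw [P_comm, h2 i u, P_comm]
  intro v
  rw [← hG]
  refine span_ind (fun v => Q (A.map φ) (G *ᵥ v) = Q (A.map φ) v) ?_ ?_ ?_ ?_ v
  · rw [Matrix.mulVec_zero]
  · intro v v' hv hv'
    rw [Matrix.mulVec_add, Q_add, Q_add, hv, hv', h3]
  · intro c v hv
    rw [Matrix.mulVec_smul, Q_smul, Q_smul, hv]
  · intro i
    rw [hb, Q_map, hg, hs i, Q_map]

end change

/-- the form is anisotropic -/
def Anis {R : Type} [CommRing R] {m : ℕ} (A : Matrix (Fin m) (Fin m) R) : Prop :=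
  ∀ w : Fin m → R, qf A w = 0 → w = 0

section poly

variable {Q₀ : Type} [CommRing Q₀] [IsDomain Q₀] {m : ℕ}

theorem AnD_poly {A : Matrix (Fin m) (Fin m) Q₀} (hA : Anis A) :
    AnD (Polynomial.natDegree : Polynomial Q₀ → ℕ) (A.map Polynomial.C) := by
  classical
  intro w hw
  obtain ⟨i₀, hi₀⟩ := Function.ne_iff.1 hw
  obtain ⟨i, hi, hmax⟩ := (Finset.univ.filter fun i => w i ≠ 0).exists_max_image
    (fun i => (w i).natDegree) ⟨i₀, by simpa using hi₀⟩
  have hi' : w i ≠ 0 := by simpa using hi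
  have hmax' : ∀ j, (w j).natDegree ≤ (w i).natDegree := by
    intro j
    by_cases hj : w j = 0
    · rw [hj, Polynomial.natDegree_zero]
      exact Nat.zero_le _
    · exact hmax j (by simpa using hj)
  obtain ⟨d, hd⟩ : ∃ d, d = (w i).natDegree := ⟨_, rfl⟩
  have hcoeff : (qf (A.map Polynomial.C) w).coeff (d + d) = qf A (fun j => (w j).coeff d) := by
    unfold qf
    rw [Polynomial.finsetSum_coeff]
    refine Finset.sum_congr rfl fun j _ => ?_
    rw [Polynomial.finsetSum_coeff]
    refine Finset.sum_congr rfl fun k _ => ?_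
    rw [Matrix.map_apply, mul_assoc, Polynomial.coeff_C_mul, mul_assoc]
    congr 1
    exact Polynomial.coeff_mul_add_eq_of_natDegree_le (hd ▸ hmax' j) (hd ▸ hmax' k)
  have hne : qf A (fun j => (w j).coeff d) ≠ 0 := by
    intro h0
    have h1 := congrFun (hA _ h0) i
    have h2 : (w i).leadingCoeff = 0 := by
      rw [Polynomial.leadingCoeff, ← hd]
      exact h1
    exact hi' (Polynomial.leadingCoeff_eq_zero.1 h2)
  have hle : (qf (A.map Polynomial.C) w).natDegree ≤ d + d := by
    unfold qf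
    refine Polynomial.natDegree_sum_le_of_forall_le _ _ fun j _ => ?_
    refine Polynomial.natDegree_sum_le_of_forall_le _ _ fun k _ => ?_
    rw [Matrix.map_apply, mul_assoc]
    refine (Polynomial.natDegree_C_mul_le _ _).trans ?_
    exact Polynomial.natDegree_mul_le_of_le (hd ▸ hmax' j) (hd ▸ hmax' k)
  have hge : d + d ≤ (qf (A.map Polynomial.C) w).natDegree :=
    Polynomial.le_natDegree_of_ne_zero (by rw [hcoeff]; exact hne)
  refine ⟨i, hi', ?_, ?_, fun j _ => hmax' j⟩
  · intro h0
    rw [h0, Polynomial.coeff_zero] at hcoeff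
    exact hne hcoeff.symm
  · rw [← hd]
    omega

/-- **Specialization** -/
theorem spec (hC : ClosedE C) (hS : ∀ (G : Type) [Group G], Group.IsSolvable G → C G)
    {A : Matrix (Fin m) (Fin m) Q₀} (hA : Anis A) (Γ : Subgroup (GL (Ix m) (Polynomial Q₀)))
    (hΓA : Γ ≤ Orth (A.map Polynomial.C))
    (hΓ : C (Γ.map (GeneralLinearGroup.map Polynomial.constantCoeff))) : C Γ := by
  refine main_dom hC hS (isDegree_natDegree Q₀) (AnD_poly hA) Polynomial.constantCoeff ?_ Γ hΓA hΓ
  intro n
  refine ⟨n + 1, fun r hr h0 => ?_⟩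
  have h1 := pow_dvd_of_mem _ r hr
  have h2 := Polynomial.natDegree_le_of_dvd h1 h0
  rw [Polynomial.natDegree_X_pow] at h2
  omega

theorem gl_inj {X Y : Type} [CommRing X] [CommRing Y] (f : X →+* Y) (hf : Function.Injective f) :
    Function.Injective (GeneralLinearGroup.map (n := Ix m) f) := by
  intro a b hab
  apply GeneralLinearGroup.ext
  intro i j
  apply hf
  have : (GeneralLinearGroup.map f a).1 i j = (GeneralLinearGroup.map f b).1 i j := by rw [hab]
  exact this

/-- the inclusion of orthogonal groups -/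
theorem incl (hC : ClosedE C) {X Y : Type} [CommRing X] [CommRing Y] (f : X →+* Y)
    (hf : Function.Injective f) {A : Matrix (Fin m) (Fin m) X} (h : C (Orth (A.map f))) :
    C (Orth A) := by
  refine hC.base.of_injective _ _ (((GeneralLinearGroup.map (n := Ix m) f).comp
    (Orth A).subtype).codRestrict _ (fun x => Orth_map f x.2)) ?_ h
  intro a b hab
  apply Subtype.ext
  exact gl_inj f hf (congrArg Subtype.val hab)

/-- rings with a homomorphism to a polynomial ring -/
theorem spec_hom (hC : ClosedE C) (hS : ∀ (G : Type) [Group G], Group.IsSolvable G → C G)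
    {R S : Type} [CommRing R] [CommRing S] (Φ : R →+* Polynomial Q₀) (hΦ : Function.Injective Φ)
    (ψ : R →+* S) (κ : S →+* Q₀) (hκ : Function.Injective κ)
    (hψ : ∀ r, (Φ r).coeff 0 = κ (ψ r)) (A : Matrix (Fin m) (Fin m) S) (hA : Anis (A.map κ))
    (A' : Matrix (Fin m) (Fin m) R) (hA' : ∀ i j, Φ (A' i j) = Polynomial.C (κ (A i j)))
    (h : C (Orth A)) : C (Orth A') := by
  have hinj := gl_inj (m := m) Φ hΦ
  obtain ⟨Γ, hΓ⟩ : ∃ Γ, Γ = (Orth A').map (GeneralLinearGroup.map (n := Ix m) Φ) := ⟨_, rfl⟩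
  have hmap : A'.map Φ = (A.map κ).map Polynomial.C := by
    ext1 i j
    exact hA' i j
  have hmap' : A'.map ψ = A := by
    ext1 i j
    apply hκ
    have h1 := hψ (A' i j)
    rw [hA', Polynomial.coeff_C_zero] at h1
    exact h1.symm
  have h1 : C Γ := by
    refine spec hC hS hA Γ ?_ ?_
    · rw [hΓ, ← hmap]
      rintro _ ⟨g, hg, rfl⟩
      exact Orth_map Φ hg
    · obtain ⟨Δ, hΔ⟩ : ∃ Δ, Δ = (Orth A).map (GeneralLinearGroup.map (n := Ix m) κ) := ⟨_, rfl⟩
      have hle : Γ.map (GeneralLinearGroup.map Polynomial.constantCoeff) ≤ Δ := by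
        rw [hΓ, hΔ]
        rintro _ ⟨_, ⟨g, hg, rfl⟩, rfl⟩
        refine ⟨GeneralLinearGroup.map ψ g, ?_, ?_⟩
        · have := Orth_map ψ hg
          rwa [hmap'] at this
        · apply GeneralLinearGroup.ext
          intro i j
          exact (hψ (g.1 i j)).symm
      have h2 : C Δ := by
        rw [hΔ]
        let e := (Orth A).equivMapOfInjective _ (gl_inj (m := m) κ hκ)
        exact hC.base.of_injective _ _ e.symm.toMonoidHom e.symm.injective h
      exact hC.base.of_injective _ _ (Subgroup.inclusion hle) (Subgroup.inclusion_injective hle) h2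
  rw [hΓ] at h1
  let e := (Orth A').equivMapOfInjective _ hinj
  exact hC.base.of_injective _ _ e.toMonoidHom e.injective h1

end poly

section graded

variable {R : Type} [CommRing R] (𝒜 : ℕ → AddSubgroup R) [GradedRing 𝒜] {m : ℕ}

open Pool.Agent.U709 (toPoly toPoly_hom toPoly_eval toPoly_coeff)

/-- **graded domains** -/
theorem graded (hC : ClosedE C) (hS : ∀ (G : Type) [Group G], Group.IsSolvable G → C G)
    [IsDomain R] (A : Matrix (Fin m) (Fin m) (SetLike.GradeZero.subring 𝒜))
    (hA : Anis (A.map (SetLike.GradeZero.subring 𝒜).subtype)) :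
    C (Orth (A.map (SetLike.GradeZero.subring 𝒜).subtype)) ↔ C (Orth A) := by
  constructor
  · intro h
    exact incl hC _ Subtype.val_injective h
  · intro h
    refine spec_hom hC hS (toPoly 𝒜) ?_
      ((Polynomial.constantCoeff.comp (toPoly 𝒜)).codRestrict (SetLike.GradeZero.subring 𝒜)
        (toPoly_coeff 𝒜)) (SetLike.GradeZero.subring 𝒜).subtype Subtype.val_injective
      (fun r => rfl) A hA _ ?_ h
    · intro a b hab
      rw [← toPoly_eval 𝒜 a, hab, toPoly_eval]
    · intro i j
      exact toPoly_hom 𝒜 (A i j).2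

end graded

section mv

variable {m : ℕ}

open MvPolynomial in
/-- anisotropy passes to polynomial rings -/
theorem Anis_mv (σ Q₀ : Type) [CommRing Q₀] [IsDomain Q₀] {A : Matrix (Fin m) (Fin m) Q₀}
    (hA : Anis A) : Anis (A.map (MvPolynomial.C (σ := σ))) := by
  classical
  let L₀ : LinearOrder σ := IsWellOrder.linearOrder WellOrderingRel
  let L : LinearOrder σ := @OrderDual.instLinearOrder σ L₀
  have hwf : WellFoundedGT σ := by
    refine ⟨?_⟩
    exact (WellOrderingRel.isWellOrder (α := σ)).wf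
  let mo : MonomialOrder σ := MonomialOrder.lex
  intro w hw
  by_contra hne
  obtain ⟨i₀, hi₀⟩ := Function.ne_iff.1 hne
  obtain ⟨i, hi, hmax⟩ := (Finset.univ.filter fun i => w i ≠ 0).exists_max_image
    (fun i => mo.toSyn (mo.degree (w i))) ⟨i₀, by simpa using hi₀⟩
  have hi' : w i ≠ 0 := by simpa using hi
  have hmax' : ∀ j, mo.toSyn (mo.degree (w j)) ≤ mo.toSyn (mo.degree (w i)) := by
    intro j
    by_cases hj : w j = 0
    · rw [hj, mo.degree_zero, map_zero]
      exact mo.zero_le _
    · exact hmax j (by simpa using hj)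
  obtain ⟨d, hd⟩ : ∃ d, d = mo.degree (w i) := ⟨_, rfl⟩
  have hcoeff : (qf (A.map MvPolynomial.C) w).coeff (d + d) = qf A (fun j => (w j).coeff d) := by
    unfold qf
    rw [MvPolynomial.coeff_sum]
    refine Finset.sum_congr rfl fun j _ => ?_
    rw [MvPolynomial.coeff_sum]
    refine Finset.sum_congr rfl fun k _ => ?_
    rw [Matrix.map_apply, mul_assoc, MvPolynomial.coeff_C_mul, mul_assoc]
    congr 1
    exact mo.coeff_mul_of_add_of_degree_le (hd ▸ hmax' j) (hd ▸ hmax' k)
  rw [hw, MvPolynomial.coeff_zero] at hcoeff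
  have h1 := congrFun (hA _ hcoeff.symm) i
  apply hi'
  rw [← mo.leadingCoeff_eq_zero_iff, MonomialOrder.leadingCoeff, ← hd]
  exact h1

/-- **polynomial rings** in any set of variables -/
theorem mv (hC : ClosedE C) (hS : ∀ (G : Type) [Group G], Group.IsSolvable G → C G)
    (σ Q₀ : Type) [CommRing Q₀] [IsDomain Q₀] {A : Matrix (Fin m) (Fin m) Q₀} (hA : Anis A) :
    C (Orth (A.map (MvPolynomial.C (σ := σ)))) ↔ C (Orth A) := by
  constructor
  · intro h
    exact incl hC _ (MvPolynomial.C_injective σ Q₀) h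
  · intro h
    refine spec_hom hC hS (Pool.Agent.U709.mvT σ Q₀) ?_ MvPolynomial.constantCoeff
      (MvPolynomial.C (σ := σ)) (MvPolynomial.C_injective σ Q₀) ?_ A (Anis_mv σ Q₀ hA) _ ?_ h
    · intro a b hab
      rw [← Pool.Agent.U709.mvT_eval σ Q₀ a, hab, Pool.Agent.U709.mvT_eval]
    · intro r
      exact Pool.Agent.U709.mvT_coeff σ Q₀ r
    · intro i j
      simp [Pool.Agent.U709.mvT]

end mv

end Pool.Agent.U722.OG
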