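import Pool.Agent.U722.OG.Iw
import Pool.Agent.U709.Dom

/-!
# Groups of isometries over a field with a discrete valuation; matrices
-/

set_option autoImplicit false

namespace Pool.Agent.U722.OG

open Matrix
open Pool.Agent.U709.BT
open Pool.Agent.Y110.FJ (ClosedE)

variable {C : ∀ (G : Type) [Group G], Prop}

/-- **groups of isometries over a field with a discrete valuation** -/
theorem main_val (hC : ClosedE C) (hS : ∀ (G : Type) [Group G], Group.IsSolvable G → C G)
    {F : Type} [Field F] {V : DV F} {m : ℕ} {A : Matrix (Fin m) (Fin m) F} (hA : An V A)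
    {Γ : Type} [Group Γ] (ρ : Γ →* Iso A) (N : ℕ → Subgroup Γ) [hN : ∀ k, (N k).Normal]
    (hmono : ∀ k, N (k + 1) ≤ N k)
    (hcomm : ∀ k, ∀ x ∈ N k, ∀ y ∈ N k, x * y * x⁻¹ * y⁻¹ ∈ N (k + 1))
    (h0 : C (Γ ⧸ N 0))
    (hsep : ∀ n : ℕ, ∃ k, ∀ x ∈ N k, (∀ v, Lat V 0 v → Lat V (-(n : ℤ)) ((ρ x).1 v)) → x = 1) :
    C Γ := by
  let act : MulAction Γ (Iso A ⧸ (iwd hA).K) := MulAction.compHom _ ρ
  refine Pool.Agent.N24.TR.tree_local hC (iwd hA).isTree
    (fun g u w h => (iwd hA).tr_act (ρ g) u w h) ?_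
  intro u
  obtain ⟨n, hn⟩ := stab_bnd hA u
  obtain ⟨k, hk⟩ := hsep n
  refine ⟨Γ ⧸ N k, inferInstance, QuotientGroup.mk' (N k),
    Pool.Agent.U709.chain_quot hC hS N hmono hcomm h0 k, ?_⟩
  intro g hg h1
  exact hk g ((QuotientGroup.eq_one_iff g).1 h1) (hn (ρ g) hg)

section mat

variable {R : Type} [CommRing R] {m : ℕ}

/-- the indices of the coordinates -/
abbrev Ix (m : ℕ) : Type := Fin 2 ⊕ Fin m

/-- the quadratic form -/
def Q (A : Matrix (Fin m) (Fin m) R) (v : Ix m → R) : R :=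
  v (Sum.inl 0) * v (Sum.inl 1) + qf A (fun i => v (Sum.inr i))

theorem Q_smul (A : Matrix (Fin m) (Fin m) R) (c : R) (v : Ix m → R) :
    Q A (c • v) = c * c * Q A v := by
  unfold Q
  have : (fun i => (c • v) (Sum.inr i)) = c • fun i => v (Sum.inr i) := rfl
  rw [this, qf_smul]
  simp only [Pi.smul_apply, smul_eq_mul]
  ring

/-- the orthogonal group -/
def Orth (A : Matrix (Fin m) (Fin m) R) : Subgroup (GL (Ix m) R) where
  carrier := {g | ∀ v, Q A (g.1 *ᵥ v) = Q A v}
  one_mem' := fun v => by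
    change Q A ((1 : Matrix (Ix m) (Ix m) R) *ᵥ v) = _
    rw [Matrix.one_mulVec]
  mul_mem' := by
    intro g h hg hh v
    change Q A ((g.1 * h.1) *ᵥ v) = _
    rw [← Matrix.mulVec_mulVec, hg, hh]
  inv_mem' := by
    intro g hg v
    have h1 := hg ((g⁻¹).1 *ᵥ v)
    have h2 : g.1 *ᵥ ((g⁻¹).1 *ᵥ v) = v := by
      rw [Matrix.mulVec_mulVec]
      have : g.1 * (g⁻¹).1 = 1 := g.mul_inv
      rw [this, Matrix.one_mulVec]
    rw [h2] at h1
    exact h1.symm

theorem qf_map {S : Type} [CommRing S] (φ : R →+* S) (A : Matrix (Fin m) (Fin m) R)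
    (w : Fin m → R) : qf (A.map φ) (fun i => φ (w i)) = φ (qf A w) := by
  unfold qf
  rw [map_sum]
  refine Finset.sum_congr rfl fun i _ => ?_
  rw [map_sum]
  refine Finset.sum_congr rfl fun j _ => ?_
  rw [map_mul, map_mul]
  rfl

theorem Q_map {S : Type} [CommRing S] (φ : R →+* S) (A : Matrix (Fin m) (Fin m) R)
    (v : Ix m → R) : Q (A.map φ) (fun i => φ (v i)) = φ (Q A v) := by
  unfold Q
  rw [map_add, map_mul, ← qf_map]

end mat

section field

variable {F : Type} [Field F] {m : ℕ}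

/-- coordinates -/
def eqv (F : Type) [Field F] (m : ℕ) : (Ix m → F) ≃ₗ[F] E F m where
  toFun v := (v (Sum.inl 0), v (Sum.inl 1), fun i => v (Sum.inr i))
  map_add' := fun _ _ => rfl
  map_smul' := fun _ _ => rfl
  invFun p := Sum.elim ![p.1, p.2.1] p.2.2
  left_inv := by
    intro v
    ext i
    rcases i with i | i
    · fin_cases i <;> rfl
    · rfl
  right_inv := fun _ => rfl

/-- the linear automorphism of a matrix -/
def lin : GL (Ix m) F →* (E F m ≃ₗ[F] E F m) where
  toFun g :=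
    { toFun := fun p => eqv F m (g.1 *ᵥ (eqv F m).symm p)
      map_add' := by
        intro p p'
        rw [map_add, Matrix.mulVec_add, map_add]
      map_smul' := by
        intro c p
        rw [map_smul, Matrix.mulVec_smul, map_smul]
        rfl
      invFun := fun p => eqv F m ((g⁻¹).1 *ᵥ (eqv F m).symm p)
      left_inv := by
        intro p
        change eqv F m ((g⁻¹).1 *ᵥ (eqv F m).symm (eqv F m (g.1 *ᵥ (eqv F m).symm p))) = p
        rw [LinearEquiv.symm_apply_apply, Matrix.mulVec_mulVec]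
        have : (g⁻¹).1 * g.1 = 1 := g.inv_mul
        rw [this, Matrix.one_mulVec, LinearEquiv.apply_symm_apply]
      right_inv := by
        intro p
        change eqv F m (g.1 *ᵥ (eqv F m).symm (eqv F m ((g⁻¹).1 *ᵥ (eqv F m).symm p))) = p
        rw [LinearEquiv.symm_apply_apply, Matrix.mulVec_mulVec]
        have : g.1 * (g⁻¹).1 = 1 := g.mul_inv
        rw [this, Matrix.one_mulVec, LinearEquiv.apply_symm_apply] }
  map_one' := by
    apply LinearEquiv.ext
    intro p
    change eqv F m ((1 : Matrix (Ix m) (Ix m) F) *ᵥ (eqv F m).symm p) = p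
    rw [Matrix.one_mulVec, LinearEquiv.apply_symm_apply]
  map_mul' := by
    intro g h
    apply LinearEquiv.ext
    intro p
    change eqv F m ((g.1 * h.1) *ᵥ (eqv F m).symm p) =
      eqv F m (g.1 *ᵥ (eqv F m).symm (eqv F m (h.1 *ᵥ (eqv F m).symm p)))
    rw [LinearEquiv.symm_apply_apply, Matrix.mulVec_mulVec]

theorem lin_apply (g : GL (Ix m) F) (p : E F m) :
    lin g p = eqv F m (g.1 *ᵥ (eqv F m).symm p) := rfl

theorem q_eqv (A : Matrix (Fin m) (Fin m) F) (v : Ix m → F) : q A (eqv F m v) = Q A v := rfl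

theorem lin_mem {A : Matrix (Fin m) (Fin m) F} {g : GL (Ix m) F} (hg : g ∈ Orth A) :
    lin g ∈ Iso A := by
  intro p
  rw [lin_apply, q_eqv, hg, ← q_eqv, LinearEquiv.apply_symm_apply]

/-- the entries of a matrix which maps the lattice to `π ^ (-n) L₀` -/
theorem entries {V : DV F} {g : GL (Ix m) F} {n : ℤ} (h : ∀ v, Lat V 0 v → Lat V n (lin g v))
    (i j : Ix m) : V.L n (g.1 i j) := by
  have h1 : Lat V 0 (eqv F m (Pi.single j 1)) := by
    have key : ∀ i : Ix m, V.L 0 ((Pi.single j 1 : Ix m → F) i) := by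
      intro i
      rw [Pi.single_apply]
      split_ifs
      · exact V.L_one
      · exact V.L_zero 0
    exact ⟨key _, key _, fun i => key _⟩
  have h2 := h _ h1
  rw [lin_apply, LinearEquiv.symm_apply_apply, Matrix.mulVec_single_one] at h2
  rcases i with i | i
  · fin_cases i
    · exact h2.1
    · exact h2.2.1
  · exact h2.2.2 i

end field

end Pool.Agent.U722.OG
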